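import Mathlib

open MeasureTheory Filter Topology
open scoped ENNReal NNReal

namespace Pool.Agent.Lib.HT26

/-- truncated Hilbert transform -/
noncomputable def trunc (f : ℝ → ℂ) (x δ : ℝ) : ℂ :=
  (Real.pi : ℂ)⁻¹ * ∫ y in {y : ℝ | δ < |y - x|}, f y / ((x : ℂ) - (y : ℂ))

/-- f is integrable and g is a.e. its principal value Hilbert transform -/
def IsHT (f g : ℝ → ℂ) : Prop :=
  Integrable f ∧ ∀ᵐ x : ℝ, Tendsto (trunc f x) (𝓝[>] 0) (𝓝 (g x))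

/-- the integral of |f|^p U -/
noncomputable def wint (p : ℝ) (U : ℝ → ℝ) (f : ℝ → ℂ) : ℝ≥0∞ :=
  ∫⁻ x, ENNReal.ofReal (‖f x‖ ^ p * U x)

/-- the weighted inequality holds for all f with integral of f φ equal to zero -/
def Adm (p : ℝ) (φ : ℝ → ℂ) (U : ℝ → ℝ) : Prop :=
  ∃ C : ℝ≥0, ∀ f g, IsHT f g → ∫ y, f y * φ y = 0 → wint p U g ≤ C * wint p U f

/-- f ↦ integral of f χ is a bounded functional for the weighted norm -/
def BddFun (p : ℝ) (U : ℝ → ℝ) (χ : ℝ → ℂ) : Prop :=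
  ∃ C : ℝ≥0, ∀ f g, IsHT f g → ENNReal.ofReal (‖∫ y, f y * χ y‖ ^ p) ≤ C * wint p U f

end Pool.Agent.Lib.HT26
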