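import Mathlib
import Pool.Agent.Lib.HT26.Defs

open MeasureTheory Filter Topology
open scoped ENNReal NNReal

namespace Pool.Agent.Lib.HT26

noncomputable def mz (z : ℂ) (y : ℝ) : ℂ := ((y : ℂ) - z)⁻¹

def cutA (w : ℝ) (n : ℕ) : Set ℝ := {y | 1 / ((n : ℝ) + 1) < |y - w| ∧ |y - w| < (n : ℝ) + 1}

noncomputable def ind (a b : ℝ) : ℝ → ℂ := (Set.Ioo a b).indicator (fun _ => 1)

structure Ctx (μ : Measure ℝ) (q : ℝ≥0∞) : Prop where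
  ac : μ ≪ volume
  fin : ∀ a b : ℝ, μ (Set.Ioo a b) ≠ ⊤
  one : 1 ≤ q

def BM (χ : ℝ → ℂ) : Prop := AEStronglyMeasurable χ volume ∧ ∃ M : ℝ, ∀ᵐ y : ℝ, ‖χ y‖ ≤ M

def AdmN (μ : Measure ℝ) (q : ℝ≥0∞) (φ : ℝ → ℂ) : Prop :=
  ∃ C : ℝ≥0, ∀ f t, IsHT f t → eLpNorm f q μ ≠ ⊤ → ∫ y, f y * φ y = 0 →
    eLpNorm t q μ ≤ C * eLpNorm f q μ

def BddS (μ : Measure ℝ) (q : ℝ≥0∞) (s : ℝ → ℂ) : Prop :=
  ∃ C : ℝ≥0, ∀ h t, IsHT h t → eLpNorm (fun x => h x * s x) q μ ≠ ⊤ →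
    eLpNorm (fun x => t x * s x) q μ ≤ C * eLpNorm (fun x => h x * s x) q μ

/-- the functional of χ is bounded on the kernel of the functional of ψ -/
def BKer (μ : Measure ℝ) (q : ℝ≥0∞) (χ ψ : ℝ → ℂ) : Prop :=
  ∃ K : ℝ≥0, ∀ f t, IsHT f t → eLpNorm f q μ ≠ ⊤ → ∫ y, f y * ψ y = 0 →
    ‖∫ y, f y * χ y‖ₑ ≤ K * eLpNorm f q μ

def BFN (μ : Measure ℝ) (q : ℝ≥0∞) (χ : ℝ → ℂ) : Prop :=
  ∃ K : ℝ≥0, ∀ f t, IsHT f t → eLpNorm f q μ ≠ ⊤ → ‖∫ y, f y * χ y‖ₑ ≤ K * eLpNorm f q μ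

def RK (μ : Measure ℝ) (q : ℝ≥0∞) (φ g : ℝ → ℂ) : Prop :=
  ∃ C : ℝ≥0, ∀ f t, IsHT f t → eLpNorm f q μ ≠ ⊤ →
    eLpNorm (fun x => t x - (∫ y, f y * φ y) * g x) q μ ≤ C * eLpNorm f q μ

def St_LIN : Prop := ∀ (f t f' t' : ℝ → ℂ) (a b : ℂ), IsHT f t → IsHT f' t' →
  IsHT (fun y => a * f y + b * f' y) (fun x => a * t x + b * t' x)

def St_MEAS : Prop := ∀ f t : ℝ → ℂ, IsHT f t → AEStronglyMeasurable t volume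

def St_ID1 : Prop := ∀ (f t : ℝ → ℂ) (z : ℂ), IsHT f t → Integrable (fun y => f y * mz z y) →
  IsHT (fun y => f y * mz z y) (fun x => (t x + (Real.pi : ℂ)⁻¹ * ∫ y, f y * mz z y) * mz z x)

def St_ID2 : Prop := ∀ (f t : ℝ → ℂ) (z : ℂ), IsHT f t →
  Integrable (fun y : ℝ => f y * ((y : ℂ) - z)) →
  IsHT (fun y : ℝ => f y * ((y : ℂ) - z))
    (fun x : ℝ => t x * ((x : ℂ) - z) - (Real.pi : ℂ)⁻¹ * ∫ y, f y)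

def St_CUT : Prop := ∀ (f t : ℝ → ℂ) (w : ℝ), IsHT f t → ∃ G : ℕ → ℝ → ℂ,
  (∀ n, IsHT ((cutA w n).indicator f) (G n)) ∧
  (∀ᵐ x : ℝ, Tendsto (fun n => G n x) atTop (𝓝 (t x))) ∧
  Tendsto (fun n => ∫ y, (cutA w n).indicator f y) atTop (𝓝 (∫ y, f y))

def St_IND : Prop := ∀ a b : ℝ, ∃ t, IsHT (ind a b) t

def St_VAN : Prop := ∀ χ : ℝ → ℂ, BM χ → (∀ a b : ℝ, ∫ y, ind a b y * χ y = 0) →
  ∀ᵐ y : ℝ, χ y = 0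

def St_LIM : Prop := ∀ (μ : Measure ℝ) (q : ℝ≥0∞), 1 ≤ q → ∀ u v : ℝ → ℂ,
  AEStronglyMeasurable u μ → AEStronglyMeasurable v μ → ∀ a : ℕ → ℂ,
  Tendsto (fun k => eLpNorm (fun x => a k * u x + v x) q μ) atTop (𝓝 0) →
  ∃ l : ℂ, ∀ᵐ x ∂μ, l * u x + v x = 0

def St_SEQ : Prop := ∀ (μ : Measure ℝ) (q : ℝ≥0∞), Ctx μ q → ∀ χ ψ : ℝ → ℂ, BM χ → BM ψ →
  BKer μ q χ ψ ∨ ∃ h t : ℕ → ℝ → ℂ, ∀ k, IsHT (h k) (t k) ∧ ∫ y, h k y * ψ y = 0 ∧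
    ∫ y, h k y * χ y = 1 ∧ eLpNorm (h k) q μ ≤ (2 : ℝ≥0∞)⁻¹ ^ k

def St_FUN : Prop := ∀ (μ : Measure ℝ) (q : ℝ≥0∞), Ctx μ q → ∀ χ ψ : ℝ → ℂ, BM χ → BM ψ →
  BKer μ q χ ψ → ∃ c : ℂ, BFN μ q (fun y => χ y - c * ψ y)

def St_R1 : Prop := ∀ (μ : Measure ℝ) (q : ℝ≥0∞), Ctx μ q → ∀ φ : ℝ → ℂ, BM φ → AdmN μ q φ →
  ∃ g, AEStronglyMeasurable g μ ∧ RK μ q φ g

def St_COM : Prop := ∀ (μ : Measure ℝ) (q : ℝ≥0∞), Ctx μ q → ∀ φ g : ℝ → ℂ, BM φ →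
  AEStronglyMeasurable g μ → RK μ q φ g → ∀ z : ℂ, z.im ≠ 0 →
  ∃ C : ℝ≥0, ∀ f t, IsHT f t → eLpNorm f q μ ≠ ⊤ →
    eLpNorm (fun x => (∫ y, f y * mz z y) * ((Real.pi : ℂ)⁻¹ * mz z x)
      - (∫ y, f y * (mz z y * φ y)) * g x + (∫ y, f y * φ y) * (mz z x * g x)) q μ
      ≤ C * eLpNorm f q μ

def St_CONST : Prop := ∀ (μ : Measure ℝ) (q : ℝ≥0∞), Ctx μ q → ∀ φ g : ℝ → ℂ, BM φ →
  AEStronglyMeasurable g μ → RK μ q φ g → eLpNorm g q μ = ⊤ → ∃ c : ℂ, ∀ᵐ y : ℝ, φ y = c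

def St_FWD1 : Prop := ∀ (μ : Measure ℝ) (q : ℝ≥0∞), Ctx μ q → ∀ g : ℝ → ℂ,
  AEStronglyMeasurable g μ → RK μ q (fun _ => 1) g → eLpNorm g q μ = ⊤ →
  ∃ z : ℂ, RK μ q (fun _ => 1) (fun x => (Real.pi : ℂ)⁻¹ * mz z x)

def St_FWD2 : Prop := ∀ (μ : Measure ℝ) (q : ℝ≥0∞), Ctx μ q → ∀ φ g : ℝ → ℂ, BM φ →
  AEStronglyMeasurable g μ → RK μ q φ g → eLpNorm g q μ ≠ ⊤ →
  AdmN μ q (fun _ => 0) ∨ ∃ c : ℂ, c ≠ 0 ∧ BFN μ q (fun y => φ y - c * mz Complex.I y) ∧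
    (RK μ q (mz Complex.I) (fun _ => -(Real.pi : ℂ)⁻¹) ∨
      ∃ w : ℂ, RK μ q (mz Complex.I) (fun x => (w - Complex.I) * (Real.pi : ℂ)⁻¹ * mz w x))

def St_EXT1 : Prop := ∀ (μ : Measure ℝ) (q : ℝ≥0∞), Ctx μ q → ∀ z : ℂ,
  RK μ q (fun _ => 1) (fun x => (Real.pi : ℂ)⁻¹ * mz z x) → BddS μ q (mz z)

def St_EXT2 : Prop := ∀ (μ : Measure ℝ) (q : ℝ≥0∞), Ctx μ q →
  RK μ q (mz Complex.I) (fun _ => -(Real.pi : ℂ)⁻¹) →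
  BddS μ q (fun x : ℝ => (x : ℂ) - Complex.I)

def St_EXT3 : Prop := ∀ (μ : Measure ℝ) (q : ℝ≥0∞), Ctx μ q → ∀ w : ℂ,
  RK μ q (mz Complex.I) (fun x => (w - Complex.I) * (Real.pi : ℂ)⁻¹ * mz w x) →
  BddS μ q (fun x : ℝ => ((x : ℂ) - Complex.I) * mz w x)

def St_CV2 : Prop := ∀ (μ : Measure ℝ) (q : ℝ≥0∞), Ctx μ q → ∀ z : ℂ,
  BddS μ q (mz z) → AdmN μ q (fun _ => 1)

def St_CV3 : Prop := ∀ (μ : Measure ℝ) (q : ℝ≥0∞), Ctx μ q →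
  (BddS μ q (fun x : ℝ => (x : ℂ) - Complex.I) ∨
    ∃ w : ℂ, BddS μ q (fun x : ℝ => ((x : ℂ) - Complex.I) * mz w x)) → AdmN μ q (mz Complex.I)

def St_NC : Prop := ¬ ∃ c : ℂ, ∀ᵐ y : ℝ, mz Complex.I y = c

def St_CV4 : Prop := ∀ (μ : Measure ℝ) (q : ℝ≥0∞), Ctx μ q → ∀ (φ : ℝ → ℂ) (c : ℂ), BM φ →
  c ≠ 0 → AdmN μ q (mz Complex.I) → BFN μ q (fun y => φ y - c * mz Complex.I y) → AdmN μ q φ

def St_BRG : Prop := ∀ (p : ℝ) (U : ℝ → ℝ), 1 < p → (∀ x, 0 ≤ U x) → LocallyIntegrable U →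
  ∀ μ : Measure ℝ, μ = volume.withDensity (fun x => ENNReal.ofReal (U x)) →
  Ctx μ (ENNReal.ofReal p) ∧
  (∀ φ, Adm p φ U ↔ AdmN μ (ENNReal.ofReal p) φ) ∧
  (∀ χ, BddFun p U χ ↔ BFN μ (ENNReal.ofReal p) χ) ∧
  (∀ (s : ℝ → ℂ) (W : ℝ → ℝ), Measurable s → (∀ x, W x = U x * ‖s x‖ ^ p) →
    (Adm p (fun _ => 0) W ↔ BddS μ (ENNReal.ofReal p) s))

theorem mz_meas (z : ℂ) : Measurable (mz z) := by
  unfold mz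
  fun_prop

theorem mz_norm_le {z : ℂ} (hz : z.im ≠ 0) (y : ℝ) : ‖mz z y‖ ≤ |z.im|⁻¹ := by
  unfold mz
  rw [norm_inv]
  have h := Complex.abs_im_le_norm ((y : ℂ) - z)
  simp only [Complex.sub_im, Complex.ofReal_im, zero_sub, abs_neg] at h
  exact inv_anti₀ (abs_pos.mpr hz) h

theorem mz_BM {z : ℂ} (hz : z.im ≠ 0) : BM (mz z) :=
  ⟨(mz_meas z).aestronglyMeasurable, _, Eventually.of_forall (mz_norm_le hz)⟩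

theorem ae_ne_c (z : ℂ) : ∀ᵐ y : ℝ, (y : ℂ) - z ≠ 0 := by
  have h : ∀ᵐ y : ℝ, y ≠ z.re := by simp [ae_iff]
  filter_upwards [h] with y hy h0
  apply hy
  have := congrArg Complex.re h0
  simp only [Complex.sub_re, Complex.ofReal_re, Complex.zero_re] at this
  linarith

theorem BM.int {χ f : ℝ → ℂ} (h : BM χ) (hf : Integrable f) :
    Integrable (fun y => f y * χ y) := by
  obtain ⟨hm, M, hM⟩ := h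
  exact hf.mul_bdd hm hM

theorem BM.mul {χ ψ : ℝ → ℂ} (h : BM χ) (h' : BM ψ) : BM (fun y => χ y * ψ y) := by
  obtain ⟨hm, M, hM⟩ := h
  obtain ⟨hm', M', hM'⟩ := h'
  refine ⟨hm.mul hm', M * M', ?_⟩
  filter_upwards [hM, hM'] with y h1 h2
  rw [norm_mul]
  exact mul_le_mul h1 h2 (norm_nonneg _) ((norm_nonneg _).trans h1)

theorem BM.const (c : ℂ) : BM (fun _ => c) :=
  ⟨aestronglyMeasurable_const, ‖c‖, Eventually.of_forall fun _ => le_rfl⟩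

theorem BM.sub {χ ψ : ℝ → ℂ} (h : BM χ) (h' : BM ψ) : BM (fun y => χ y - ψ y) := by
  obtain ⟨hm, M, hM⟩ := h
  obtain ⟨hm', M', hM'⟩ := h'
  refine ⟨hm.sub hm', M + M', ?_⟩
  filter_upwards [hM, hM'] with y h1 h2
  exact (norm_sub_le _ _).trans (add_le_add h1 h2)

theorem N_ind {μ : Measure ℝ} {q : ℝ≥0∞} (h : Ctx μ q) (a b : ℝ) : eLpNorm (ind a b) q μ ≠ ⊤ :=
  (memLp_indicator_const q measurableSet_Ioo (1 : ℂ) (Or.inr (h.fin a b))).2.ne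

theorem N_cmul (μ : Measure ℝ) (q : ℝ≥0∞) (c : ℂ) (f : ℝ → ℂ) :
    eLpNorm (fun x => c * f x) q μ = ‖c‖ₑ * eLpNorm f q μ :=
  eLpNorm_const_smul c f q μ

theorem N_add {μ : Measure ℝ} {q : ℝ≥0∞} (hq : 1 ≤ q) {f g : ℝ → ℂ}
    (hf : AEStronglyMeasurable f μ) (hg : AEStronglyMeasurable g μ) :
    eLpNorm (fun x => f x + g x) q μ ≤ eLpNorm f q μ + eLpNorm g q μ :=
  eLpNorm_add_le hf hg hq

theorem N_sub {μ : Measure ℝ} {q : ℝ≥0∞} (hq : 1 ≤ q) {f g : ℝ → ℂ}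
    (hf : AEStronglyMeasurable f μ) (hg : AEStronglyMeasurable g μ) :
    eLpNorm (fun x => f x - g x) q μ ≤ eLpNorm f q μ + eLpNorm g q μ :=
  eLpNorm_sub_le hf hg hq

theorem N_mz {μ : Measure ℝ} {q : ℝ≥0∞} {z : ℂ} (hz : z.im ≠ 0) (f : ℝ → ℂ) :
    eLpNorm (fun x => f x * mz z x) q μ ≤ ENNReal.ofReal |z.im|⁻¹ * eLpNorm f q μ := by
  apply eLpNorm_le_mul_eLpNorm_of_ae_le_mul
  refine Eventually.of_forall fun x => ?_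
  rw [norm_mul, mul_comm]
  exact mul_le_mul_of_nonneg_right (mz_norm_le hz x) (norm_nonneg _)

end Pool.Agent.Lib.HT26
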