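import Pool.Agent.Lib.HT26.Blue

open MeasureTheory Filter Topology
open scoped ENNReal NNReal

namespace Pool.Agent.Lib.HT26

namespace BRG

theorem up {p : ℝ} (hp : 0 < p) {A B : ℝ≥0∞} {C : ℝ≥0} (h : A ≤ C * B) :
    A ^ (1 / p) ≤ ((C ^ (1 / p) : ℝ≥0) : ℝ≥0∞) * B ^ (1 / p) := by
  have h0 : 0 ≤ 1 / p := by positivity
  rw [ENNReal.coe_rpow_of_nonneg _ h0, ← ENNReal.mul_rpow_of_nonneg _ _ h0]
  exact ENNReal.rpow_le_rpow h h0

theorem down {p : ℝ} (hp : 0 < p) {A B : ℝ≥0∞} {C : ℝ≥0}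
    (h : B ^ (1 / p) ≠ ⊤ → A ^ (1 / p) ≤ C * B ^ (1 / p)) :
    A ≤ ((C ^ p + 1 : ℝ≥0) : ℝ≥0∞) * B := by
  by_cases hB : B = ⊤
  · rw [hB, ENNReal.mul_top]
    · exact le_top
    · exact ENNReal.coe_ne_zero.2 (by positivity)
  · have h1 := ENNReal.rpow_le_rpow
      (h (ENNReal.rpow_ne_top_of_nonneg (by positivity) hB)) hp.le
    rw [ENNReal.mul_rpow_of_nonneg _ _ hp.le, one_div, ENNReal.rpow_inv_rpow hp.ne',
      ENNReal.rpow_inv_rpow hp.ne', ← ENNReal.coe_rpow_of_nonneg _ hp.le] at h1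
    exact h1.trans (mul_le_mul_left (ENNReal.coe_le_coe.2 le_self_add) _)

theorem norm_eq {p : ℝ} (hp : 0 < p) {U : ℝ → ℝ} (hU : LocallyIntegrable U)
    (f : ℝ → ℂ) :
    eLpNorm f (ENNReal.ofReal p) (volume.withDensity fun x => ENNReal.ofReal (U x)) =
      wint p U f ^ (1 / p) := by
  rw [eLpNorm_eq_lintegral_rpow_enorm_toReal (by simpa using hp) ENNReal.ofReal_ne_top,
    ENNReal.toReal_ofReal hp.le,
    lintegral_withDensity_eq_lintegral_mul_non_measurable₀ _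
      hU.aestronglyMeasurable.aemeasurable.ennreal_ofReal
      (Eventually.of_forall fun _ => ENNReal.ofReal_lt_top)]
  unfold wint
  congr 2
  funext x
  rw [Pi.mul_apply, ENNReal.ofReal_mul (by positivity), mul_comm,
    ← ENNReal.ofReal_rpow_of_nonneg (norm_nonneg _) hp.le, ofReal_norm]

theorem en_eq {p : ℝ} (hp : 0 < p) (a : ℂ) : ENNReal.ofReal (‖a‖ ^ p) ^ (1 / p) = ‖a‖ₑ := by
  rw [← ENNReal.ofReal_rpow_of_nonneg (norm_nonneg _) hp.le, one_div,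
    ENNReal.rpow_rpow_inv hp.ne', ofReal_norm]

theorem wint_mul {p : ℝ} {U W : ℝ → ℝ} {s : ℝ → ℂ} (hW : ∀ x, W x = U x * ‖s x‖ ^ p)
    (f : ℝ → ℂ) : wint p W f = wint p U (fun x => f x * s x) := by
  unfold wint
  congr 1
  funext x
  rw [hW, norm_mul, Real.mul_rpow (norm_nonneg _) (norm_nonneg _)]
  congr 1
  ring

end BRG

theorem bBRG : St_BRG := by
  intro p U hp _ hU μ hμ
  have hp0 : 0 < p := by linarith
  have hN : ∀ f, eLpNorm f (ENNReal.ofReal p) μ = wint p U f ^ (1 / p) := fun f => by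
    rw [hμ]
    exact BRG.norm_eq hp0 hU f
  refine ⟨⟨?_, fun a b => ?_, ENNReal.one_le_ofReal.2 hp.le⟩, fun φ => ⟨?_, ?_⟩,
    fun χ => ⟨?_, ?_⟩, fun s W _ hW => ⟨?_, ?_⟩⟩
  · rw [hμ]
    exact withDensity_absolutelyContinuous _ _
  · rw [hμ, withDensity_apply _ measurableSet_Ioo]
    have h : IntegrableOn U (Set.Ioo a b) :=
      (hU.integrableOn_isCompact isCompact_Icc).mono_set Set.Ioo_subset_Icc_self
    exact (Integrable.lintegral_lt_top h).ne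
  · rintro ⟨C, h⟩
    refine ⟨C ^ (1 / p), fun f t hft _ h0 => ?_⟩
    rw [hN, hN]
    exact BRG.up hp0 (h f t hft h0)
  · rintro ⟨C, h⟩
    refine ⟨C ^ p + 1, fun f t hft h0 => BRG.down hp0 fun hB => ?_⟩
    rw [← hN, ← hN]
    exact h f t hft (by rwa [hN]) h0
  · rintro ⟨C, h⟩
    refine ⟨C ^ (1 / p), fun f t hft _ => ?_⟩
    rw [hN, ← BRG.en_eq hp0]
    exact BRG.up hp0 (h f t hft)
  · rintro ⟨C, h⟩
    refine ⟨C ^ p + 1, fun f t hft => BRG.down hp0 fun hB => ?_⟩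
    rw [← hN, BRG.en_eq hp0]
    exact h f t hft (by rwa [hN])
  · rintro ⟨C, h⟩
    refine ⟨C ^ (1 / p), fun f t hft _ => ?_⟩
    rw [hN, hN, ← BRG.wint_mul hW, ← BRG.wint_mul hW]
    exact BRG.up hp0 (h f t hft (by simp))
  · rintro ⟨C, h⟩
    refine ⟨C ^ p + 1, fun f t hft _ => BRG.down hp0 fun hB => ?_⟩
    rw [BRG.wint_mul hW] at hB
    rw [BRG.wint_mul hW, BRG.wint_mul hW, ← hN, ← hN]
    exact h f t hft (by rwa [hN])

end Pool.Agent.Lib.HT26
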