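import Mathlib
import Pool.Agent.Lib.HT26.Blue

open MeasureTheory Filter Topology
open scoped ENNReal NNReal

namespace Pool.Agent.Lib.HT26

namespace CUT

theorem measS (x δ : ℝ) : MeasurableSet {y : ℝ | δ < |y - x|} :=
  (isOpen_lt continuous_const (by fun_prop)).measurableSet

theorem intOn {f : ℝ → ℂ} (hf : Integrable f) (x : ℝ) {δ : ℝ} (hδ : 0 < δ) :
    IntegrableOn (fun y : ℝ => f y / ((x : ℂ) - (y : ℂ))) {y : ℝ | δ < |y - x|} := by
  have hm : Measurable (fun y : ℝ => ((x : ℂ) - (y : ℂ))⁻¹) := by fun_prop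
  have h1 : Integrable (fun y : ℝ => f y * ((x : ℂ) - (y : ℂ))⁻¹)
      (volume.restrict {y : ℝ | δ < |y - x|}) := by
    refine (hf.integrableOn (s := {y : ℝ | δ < |y - x|})).mul_bdd (c := δ⁻¹)
      hm.aestronglyMeasurable ?_
    filter_upwards [ae_restrict_mem (measS x δ)] with y hy
    rw [norm_inv, ← Complex.ofReal_sub, Complex.norm_real, Real.norm_eq_abs, abs_sub_comm]
    exact inv_anti₀ hδ (le_of_lt hy)
  exact h1.congr (Eventually.of_forall fun y => (div_eq_mul_inv _ _).symm)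

theorem trunc_ind (f : ℝ → ℂ) {A : Set ℝ} (hA : MeasurableSet A) (x δ : ℝ) :
    trunc (A.indicator f) x δ = (Real.pi : ℂ)⁻¹ *
      ∫ y in {y : ℝ | δ < |y - x|} ∩ A, f y / ((x : ℂ) - (y : ℂ)) := by
  unfold trunc
  rw [← setIntegral_indicator hA]
  refine congrArg _ (integral_congr_ae (Eventually.of_forall fun y => ?_))
  by_cases hy : y ∈ A
  · simp only [Set.indicator_of_mem hy]
  · simp only [Set.indicator_of_notMem hy, zero_div]

theorem near {A : Set ℝ} {x : ℝ} (h : A ∈ 𝓝 x) :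
    ∃ r : ℝ, 0 < r ∧ ∀ δ, δ < r → Aᶜ ⊆ {y : ℝ | δ < |y - x|} := by
  obtain ⟨r, hr, hb⟩ := Metric.mem_nhds_iff.mp h
  refine ⟨r, hr, fun δ hδ y hy => ?_⟩
  by_contra h2
  apply hy
  apply hb
  rw [Metric.mem_ball, Real.dist_eq]
  exact lt_of_le_of_lt (not_lt.mp h2) hδ

open Classical in
noncomputable def G (f t : ℝ → ℂ) (A : Set ℝ) (x : ℝ) : ℂ :=
  if x ∈ A then t x - (Real.pi : ℂ)⁻¹ * ∫ y in Aᶜ, f y / ((x : ℂ) - (y : ℂ))
  else (Real.pi : ℂ)⁻¹ * ∫ y in A, f y / ((x : ℂ) - (y : ℂ))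

theorem gen {f t : ℝ → ℂ} (h : IsHT f t) {A : Set ℝ} (hA : MeasurableSet A)
    (hx : ∀ᵐ x : ℝ, A ∈ 𝓝 x ∨ Aᶜ ∈ 𝓝 x) : IsHT (A.indicator f) (G f t A) := by
  refine ⟨h.1.indicator hA, ?_⟩
  filter_upwards [h.2, hx] with x h1 h2
  rcases h2 with h2 | h2
  · obtain ⟨r, hr, hb⟩ := near h2
    unfold G
    rw [if_pos (mem_of_mem_nhds h2)]
    refine (h1.sub_const _).congr' ?_
    filter_upwards [Ioo_mem_nhdsGT hr] with δ hδ
    have h3 := integral_inter_add_diff hA (intOn h.1 x hδ.1)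
    have h4 : {y : ℝ | δ < |y - x|} \ A = Aᶜ := by
      rw [Set.diff_eq]
      exact Set.inter_eq_right.mpr (hb δ hδ.2)
    rw [h4] at h3
    rw [trunc_ind f hA]
    unfold trunc
    rw [← h3]
    ring
  · obtain ⟨r, hr, hb⟩ := near h2
    unfold G
    rw [if_neg (mem_of_mem_nhds h2)]
    refine tendsto_const_nhds.congr' ?_
    filter_upwards [Ioo_mem_nhdsGT hr] with δ hδ
    have h4 : {y : ℝ | δ < |y - x|} ∩ A = A := by
      refine Set.inter_eq_right.mpr ?_
      simpa only [compl_compl] using hb δ hδ.2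
    rw [trunc_ind f hA, h4]

theorem cut_open (w : ℝ) (n : ℕ) : IsOpen (cutA w n) := by
  have h1 : IsOpen {y : ℝ | 1 / ((n : ℝ) + 1) < |y - w|} :=
    isOpen_lt continuous_const (by fun_prop)
  have h2 : IsOpen {y : ℝ | |y - w| < (n : ℝ) + 1} :=
    isOpen_lt (by fun_prop) continuous_const
  exact h1.inter h2

theorem ae_abs_ne (w r : ℝ) : ∀ᵐ x : ℝ, |x - w| ≠ r := by
  have h1 : ∀ᵐ y : ℝ, y ≠ w + r := by simp [ae_iff]
  have h2 : ∀ᵐ y : ℝ, y ≠ w - r := by simp [ae_iff]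
  filter_upwards [h1, h2] with x a b h
  rcases abs_cases (x - w) with c | c
  · exact a (by linarith [c.1])
  · exact b (by linarith [c.1])

theorem cut_ae (w : ℝ) (n : ℕ) : ∀ᵐ x : ℝ, cutA w n ∈ 𝓝 x ∨ (cutA w n)ᶜ ∈ 𝓝 x := by
  filter_upwards [ae_abs_ne w (1 / ((n : ℝ) + 1)), ae_abs_ne w ((n : ℝ) + 1)] with x h1 h2
  by_cases hx : x ∈ cutA w n
  · exact Or.inl ((cut_open w n).mem_nhds hx)
  · right
    rcases lt_or_gt_of_ne h1 with a | a
    · have ho : IsOpen {y : ℝ | |y - w| < 1 / ((n : ℝ) + 1)} :=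
        isOpen_lt (by fun_prop) continuous_const
      filter_upwards [ho.mem_nhds a] with y hy
      exact fun h' => lt_asymm hy h'.1
    · have b : (n : ℝ) + 1 < |x - w| := by
        rcases lt_or_gt_of_ne h2 with b | b
        · exact absurd ⟨a, b⟩ hx
        · exact b
      have ho : IsOpen {y : ℝ | (n : ℝ) + 1 < |y - w|} :=
        isOpen_lt continuous_const (by fun_prop)
      filter_upwards [ho.mem_nhds b] with y hy
      exact fun h' => lt_asymm hy h'.2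

theorem cut_mono (w : ℝ) : Monotone (cutA w) := by
  intro m n hmn y hy
  have h : (m : ℝ) + 1 ≤ (n : ℝ) + 1 := by
    have : (m : ℝ) ≤ n := by exact_mod_cast hmn
    linarith
  exact ⟨lt_of_le_of_lt (one_div_le_one_div_of_le (by positivity) h) hy.1, lt_of_lt_of_le hy.2 h⟩

theorem cut_ev {w x : ℝ} (hx : x ≠ w) : ∀ᶠ n : ℕ in atTop, x ∈ cutA w n := by
  have hp : 0 < |x - w| := abs_pos.mpr (sub_ne_zero.mpr hx)
  have h1 : ∀ᶠ n : ℕ in atTop, 1 / ((n : ℝ) + 1) < |x - w| :=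
    (tendsto_one_div_add_atTop_nhds_zero_nat (𝕜 := ℝ)).eventually (gt_mem_nhds hp)
  have h2 : ∀ᶠ n : ℕ in atTop, |x - w| < (n : ℝ) :=
    tendsto_natCast_atTop_atTop.eventually (eventually_gt_atTop _)
  filter_upwards [h1, h2] with n a b
  exact ⟨a, by linarith⟩

theorem tail {F : ℝ → ℂ} (w : ℝ) (h : ∃ n, IntegrableOn F (cutA w n)ᶜ) :
    Tendsto (fun n => ∫ y in (cutA w n)ᶜ, F y) atTop (𝓝 0) := by
  have h1 := tendsto_setIntegral_of_antitone (μ := volume) (f := F) (s := fun n => (cutA w n)ᶜ)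
    (fun n => (cut_open w n).measurableSet.compl)
    (fun m n hmn => Set.compl_subset_compl.mpr (cut_mono w hmn)) h
  have h2 : volume (⋂ n, (cutA w n)ᶜ) = 0 := by
    refine measure_mono_null (t := {w}) (fun y hy => ?_) (measure_singleton w)
    by_contra hne
    obtain ⟨n, hn⟩ := (cut_ev (w := w) (x := y) hne).exists
    exact Set.mem_iInter.mp hy n hn
  rwa [setIntegral_measure_zero _ h2] at h1

end CUT

theorem bCUT : St_CUT := by
  intro f t w h
  refine ⟨fun n => CUT.G f t (cutA w n),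
    fun n => CUT.gen h (CUT.cut_open w n).measurableSet (CUT.cut_ae w n), ?_, ?_⟩
  · have hw : ∀ᵐ y : ℝ, y ≠ w := by simp [ae_iff]
    filter_upwards [hw] with x hx
    obtain ⟨n, hn⟩ := (CUT.cut_ev hx).exists
    obtain ⟨r, hr, hb⟩ := CUT.near ((CUT.cut_open w n).mem_nhds hn)
    have h1 := CUT.tail (F := fun y : ℝ => f y / ((x : ℂ) - (y : ℂ))) w
      ⟨n, (CUT.intOn h.1 x (half_pos hr)).mono_set (hb _ (half_lt_self hr))⟩
    have h2 := (h1.const_mul ((Real.pi : ℂ)⁻¹)).const_sub (t x)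
    rw [mul_zero, sub_zero] at h2
    refine h2.congr' ?_
    filter_upwards [CUT.cut_ev hx] with m hm
    unfold CUT.G
    rw [if_pos hm]
  · have h1 := CUT.tail (F := f) w ⟨0, h.1.integrableOn⟩
    have h2 := h1.const_sub (∫ y, f y)
    rw [sub_zero] at h2
    refine h2.congr (fun n => ?_)
    rw [integral_indicator (CUT.cut_open w n).measurableSet,
      ← integral_add_compl (CUT.cut_open w n).measurableSet h.1]
    ring

end Pool.Agent.Lib.HT26
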