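import Mathlib
import Pool.Agent.Lib.HT26.Blue

open MeasureTheory Filter Topology
open scoped ENNReal NNReal

namespace Pool.Agent.Lib.HT26

namespace CV2

theorem cut_meas (w : ℝ) (n : ℕ) : MeasurableSet (cutA w n) := by
  have h1 : IsOpen {y : ℝ | 1 / ((n : ℝ) + 1) < |y - w|} :=
    isOpen_lt continuous_const (by fun_prop)
  have h2 : IsOpen {y : ℝ | |y - w| < (n : ℝ) + 1} :=
    isOpen_lt (by fun_prop) continuous_const
  exact (h1.inter h2).measurableSet

theorem int_ind : ∫ y, ind 0 1 y = 1 := by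
  unfold ind
  rw [integral_indicator measurableSet_Ioo]
  simp

theorem int_mul {F : ℝ → ℂ} (hF : Integrable F) (R : ℝ) (hR : ∀ y, R < |y| → F y = 0) (z : ℂ) :
    Integrable (fun y : ℝ => F y * ((y : ℂ) - z)) := by
  have hm : AEStronglyMeasurable (fun y : ℝ => (y : ℂ) - z) volume :=
    (by fun_prop : Continuous (fun y : ℝ => (y : ℂ) - z)).aestronglyMeasurable
  refine (hF.norm.mul_const (|R| + ‖z‖)).mono' (hF.1.mul hm) (Eventually.of_forall fun y => ?_)
  by_cases hy : R < |y|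
  · rw [hR y hy]
    simp
  · rw [norm_mul]
    refine mul_le_mul_of_nonneg_left ((norm_sub_le _ _).trans ?_) (norm_nonneg _)
    rw [Complex.norm_real, Real.norm_eq_abs]
    have := le_abs_self R
    linarith [not_lt.mp hy]

theorem cancel {μ : Measure ℝ} (hμ : μ ≪ volume) (q : ℝ≥0∞) (z : ℂ) (F : ℝ → ℂ) :
    eLpNorm (fun x : ℝ => F x * ((x : ℂ) - z) * mz z x) q μ = eLpNorm F q μ := by
  refine eLpNorm_congr_ae ?_
  filter_upwards [hμ.ae_le (ae_ne_c z)] with x hx
  unfold mz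
  rw [mul_assoc, mul_inv_cancel₀ hx, mul_one]

theorem core (hID2 : St_ID2) {μ : Measure ℝ} {q : ℝ≥0∞} (hc : Ctx μ q) {z : ℂ} {C : ℝ≥0}
    (hC : ∀ h t, IsHT h t → eLpNorm (fun x => h x * mz z x) q μ ≠ ⊤ →
      eLpNorm (fun x => t x * mz z x) q μ ≤ C * eLpNorm (fun x => h x * mz z x) q μ)
    {F T : ℝ → ℂ} (h : IsHT F T) (R : ℝ) (hR : ∀ y, R < |y| → F y = 0)
    (h0 : ∫ y, F y = 0) (hN : eLpNorm F q μ ≠ ⊤) : eLpNorm T q μ ≤ C * eLpNorm F q μ := by
  have h1 := hID2 F T z h (int_mul h.1 R hR z)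
  rw [h0] at h1
  simp only [mul_zero, sub_zero] at h1
  have h2 := hC _ _ h1 (by rw [cancel hc.ac]; exact hN)
  rwa [cancel hc.ac, cancel hc.ac] at h2

end CV2

theorem bCV2 (hLIN : St_LIN) (hMEAS : St_MEAS) (hID2 : St_ID2) (hCUT : St_CUT) (hIND : St_IND) :
    St_CV2 := by
  intro μ q hc z hB
  obtain ⟨C, hC⟩ := hB
  refine ⟨C, fun f t h hN h0 => ?_⟩
  simp only [mul_one] at h0
  obtain ⟨G, hG, hGt, hGi⟩ := hCUT f t 0 h
  obtain ⟨u, hu⟩ := hIND 0 1
  rw [h0] at hGi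
  set c : ℕ → ℂ := fun n => ∫ y, (cutA 0 n).indicator f y with hcdef
  have hF : ∀ n, IsHT (fun y => 1 * (cutA 0 n).indicator f y + (-c n) * ind 0 1 y)
      (fun x => 1 * G n x + (-c n) * u x) := fun n => hLIN _ _ _ _ 1 (-c n) (hG n) hu
  have hNle : ∀ n, eLpNorm (fun y => 1 * (cutA 0 n).indicator f y + (-c n) * ind 0 1 y) q μ
      ≤ eLpNorm f q μ + ‖c n‖ₑ * eLpNorm (ind 0 1) q μ := by
    intro n
    have m1 : AEStronglyMeasurable (fun y => 1 * (cutA 0 n).indicator f y) μ :=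
      ((hG n).1.1.mono_ac hc.ac).const_mul 1
    have m2 : AEStronglyMeasurable (fun y => (-c n) * ind 0 1 y) μ :=
      (hu.1.1.mono_ac hc.ac).const_mul (-c n)
    refine (N_add hc.one m1 m2).trans (add_le_add ?_ ?_)
    · rw [N_cmul, enorm_one, one_mul]
      exact eLpNorm_indicator_le f
    · rw [N_cmul, enorm_neg]
  have hT : ∀ n, eLpNorm (fun x => 1 * G n x + (-c n) * u x) q μ
      ≤ C * (eLpNorm f q μ + ‖c n‖ₑ * eLpNorm (ind 0 1) q μ) := by
    intro n
    refine (CV2.core hID2 hc hC (hF n) ((n : ℝ) + 1) (fun y hy => ?_) ?_ ?_).trans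
      (mul_le_mul_right (hNle n) _)
    · have a1 : y ∉ cutA 0 n := fun h' => by
        have := h'.2
        rw [sub_zero] at this
        exact lt_asymm hy this
      have a2 : y ∉ Set.Ioo (0 : ℝ) 1 := fun h' => by
        rw [abs_of_pos h'.1] at hy
        have : (0 : ℝ) ≤ n := Nat.cast_nonneg n
        linarith [h'.2]
      unfold ind
      rw [Set.indicator_of_notMem a1, Set.indicator_of_notMem a2]
      simp
    · rw [integral_add ((hG n).1.const_mul 1) (hu.1.const_mul (-c n)), integral_const_mul,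
        integral_const_mul, CV2.int_ind]
      simp only [hcdef]
      ring
    · exact ne_top_of_le_ne_top (ENNReal.add_ne_top.mpr ⟨hN,
        ENNReal.mul_ne_top enorm_ne_top (N_ind hc 0 1)⟩) (hNle n)
  have hlim : ∀ᵐ x ∂μ, Tendsto (fun n => 1 * G n x + (-c n) * u x) atTop (𝓝 (t x)) := by
    filter_upwards [hc.ac.ae_le hGt] with x hx
    have h1 := (Tendsto.const_mul 1 hx).add (hGi.neg.mul_const (u x))
    simpa only [one_mul, neg_zero, zero_mul, add_zero] using h1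
  have hfat := Lp.eLpNorm_lim_le_liminf_eLpNorm (p := q) (μ := μ)
    (f := fun n x => 1 * G n x + (-c n) * u x)
    (fun n => (hMEAS _ _ (hF n)).mono_ac hc.ac) t hlim
  have hb : Tendsto (fun n => (C : ℝ≥0∞) * (eLpNorm f q μ + ‖c n‖ₑ * eLpNorm (ind 0 1) q μ))
      atTop (𝓝 (C * eLpNorm f q μ)) := by
    have h1 : Tendsto (fun n => ‖c n‖ₑ) atTop (𝓝 0) := by
      simpa only [enorm_zero] using hGi.enorm
    have h2 := ENNReal.Tendsto.mul_const h1 (Or.inr (N_ind hc 0 1))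
    rw [zero_mul] at h2
    have h3 := h2.const_add (eLpNorm f q μ)
    rw [add_zero] at h3
    exact ENNReal.Tendsto.const_mul h3 (Or.inr ENNReal.coe_ne_top)
  refine hfat.trans ?_
  rw [← hb.liminf_eq]
  exact liminf_le_liminf (Eventually.of_forall hT)

end Pool.Agent.Lib.HT26
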