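import Pool.Agent.Lib.HT26.B_LIN

open MeasureTheory Filter Topology
open scoped ENNReal NNReal

namespace Pool.Agent.Lib.HT26

theorem bID2 : St_ID2 := by
  intro f t z h hi
  refine ⟨hi, ?_⟩
  filter_upwards [h.2] with x hx
  refine ((hx.mul_const ((x : ℂ) - z)).sub
    ((LIN.tail h.1 x).const_mul (Real.pi : ℂ)⁻¹)).congr' ?_
  filter_upwards [self_mem_nhdsWithin] with δ hδ
  have hδ' : (0 : ℝ) < δ := hδ
  have i1 := LIN.kint h.1 x hδ'
  have e : ∫ y in {y : ℝ | δ < |y - x|}, f y * ((y : ℂ) - z) / ((x : ℂ) - (y : ℂ)) =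
      ∫ y in {y : ℝ | δ < |y - x|}, (f y / ((x : ℂ) - (y : ℂ)) * ((x : ℂ) - z) - f y) := by
    refine integral_congr_ae ?_
    filter_upwards [ae_restrict_mem (LIN.meas x δ)] with y hy
    have hxy := LIN.ne hδ' hy
    field_simp
    ring
  unfold trunc
  rw [e, integral_sub (i1.mul_const _) h.1.integrableOn, integral_mul_const]
  ring

end Pool.Agent.Lib.HT26
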