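import Mathlib
import Pool.Agent.Lib.HT26.Blue

open MeasureTheory Filter Topology
open scoped ENNReal NNReal

namespace Pool.Agent.Lib.HT26

namespace IND

theorem measS (x δ : ℝ) : MeasurableSet {y : ℝ | δ < |y - x|} :=
  (isOpen_lt continuous_const (by fun_prop)).measurableSet

theorem intOn {f : ℝ → ℂ} (hf : Integrable f) (x : ℝ) {δ : ℝ} (hδ : 0 < δ) :
    IntegrableOn (fun y : ℝ => f y / ((x : ℂ) - (y : ℂ))) {y : ℝ | δ < |y - x|} := by
  have hm : Measurable (fun y : ℝ => ((x : ℂ) - (y : ℂ))⁻¹) := by fun_prop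
  have h1 : Integrable (fun y : ℝ => f y * ((x : ℂ) - (y : ℂ))⁻¹)
      (volume.restrict {y : ℝ | δ < |y - x|}) := by
    refine (hf.integrableOn (s := {y : ℝ | δ < |y - x|})).mul_bdd (c := δ⁻¹)
      hm.aestronglyMeasurable ?_
    filter_upwards [ae_restrict_mem (measS x δ)] with y hy
    rw [norm_inv, ← Complex.ofReal_sub, Complex.norm_real, Real.norm_eq_abs, abs_sub_comm]
    exact inv_anti₀ hδ (le_of_lt hy)
  exact h1.congr (Eventually.of_forall fun y => (div_eq_mul_inv _ _).symm)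

theorem odd_zero (x δ ε : ℝ) (c : ℂ) :
    ∫ y in {y : ℝ | δ < |y - x|} \ {y : ℝ | ε < |y - x|}, c / ((x : ℂ) - (y : ℂ)) = 0 := by
  set R : Set ℝ := {y : ℝ | δ < |y - x|} \ {y : ℝ | ε < |y - x|} with hR
  have hRm : MeasurableSet R := (measS x δ).diff (measS x ε)
  rw [← integral_indicator hRm]
  set g : ℝ → ℂ := R.indicator (fun y : ℝ => c / ((x : ℂ) - (y : ℂ))) with hg
  have h1 : ∫ y, g (2 * x - y) = ∫ y, g y := integral_sub_left_eq_self g volume (2 * x)
  have h2 : ∀ y, g (2 * x - y) = - g y := by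
    intro y
    have ha : |2 * x - y - x| = |y - x| := by
      rw [abs_sub_comm]
      congr 1
      ring
    have hmem : (2 * x - y) ∈ R ↔ y ∈ R := by
      simp only [hR, Set.mem_diff, Set.mem_setOf_eq, ha]
    by_cases hy : y ∈ R
    · rw [hg, Set.indicator_of_mem hy, Set.indicator_of_mem (hmem.mpr hy)]
      have h3 : (x : ℂ) - ((2 * x - y : ℝ) : ℂ) = -((x : ℂ) - (y : ℂ)) := by
        push_cast
        ring
      rw [h3, div_neg]
    · rw [hg, Set.indicator_of_notMem hy, Set.indicator_of_notMem (fun h => hy (hmem.mp h)),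
        neg_zero]
  simp only [h2, integral_neg] at h1
  linear_combination (-1 / 2 : ℂ) * h1

theorem trunc_const {f : ℝ → ℂ} (hf : Integrable f) {x δ ε : ℝ} {c : ℂ} (hδ : 0 < δ)
    (hδε : δ ≤ ε) (hc : ∀ y, |y - x| ≤ ε → f y = c) : trunc f x δ = trunc f x ε := by
  unfold trunc
  have h1 := integral_inter_add_diff (measS x ε) (intOn hf x hδ)
  have h2 : {y : ℝ | δ < |y - x|} ∩ {y : ℝ | ε < |y - x|} = {y : ℝ | ε < |y - x|} :=
    Set.inter_eq_right.mpr (fun y hy => lt_of_le_of_lt hδε hy)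
  have h3 : ∫ y in {y : ℝ | δ < |y - x|} \ {y : ℝ | ε < |y - x|}, f y / ((x : ℂ) - (y : ℂ)) = 0 := by
    rw [← odd_zero x δ ε c]
    refine setIntegral_congr_fun ((measS x δ).diff (measS x ε)) (fun y hy => ?_)
    have h4 : |y - x| ≤ ε := not_lt.mp hy.2
    simp only [hc y h4]
  rw [h2, h3, add_zero] at h1
  rw [h1]

theorem tends {f : ℝ → ℂ} (hf : Integrable f) {x : ℝ} {c : ℂ} (hc : ∀ᶠ y in 𝓝 x, f y = c) :
    ∃ l, Tendsto (trunc f x) (𝓝[>] 0) (𝓝 l) := by
  obtain ⟨r, hr, hb⟩ := Metric.eventually_nhds_iff.mp hc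
  refine ⟨trunc f x (r / 2), tendsto_const_nhds.congr' ?_⟩
  filter_upwards [Ioo_mem_nhdsGT (half_pos hr)] with δ hδ
  refine (trunc_const hf hδ.1 hδ.2.le (c := c) (fun y hy => hb ?_)).symm
  rw [Real.dist_eq]
  linarith

end IND

theorem bIND : St_IND := by
  intro a b
  have hf : Integrable (ind a b) := by
    unfold ind
    rw [integrable_indicator_iff measurableSet_Ioo]
    exact integrableOn_const (by simp) (by simp)
  refine ⟨fun x => limUnder (𝓝[>] 0) (trunc (ind a b) x), hf, ?_⟩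
  have ha : ∀ᵐ y : ℝ, y ≠ a := by simp [ae_iff]
  have hb : ∀ᵐ y : ℝ, y ≠ b := by simp [ae_iff]
  filter_upwards [ha, hb] with x hxa hxb
  apply tendsto_nhds_limUnder
  by_cases hx : x ∈ Set.Ioo a b
  · refine IND.tends hf (c := 1) ?_
    filter_upwards [isOpen_Ioo.mem_nhds hx] with y hy
    exact Set.indicator_of_mem hy _
  · refine IND.tends hf (c := 0) ?_
    rcases lt_or_gt_of_ne hxa with h | h
    · filter_upwards [Iio_mem_nhds h] with y hy
      exact Set.indicator_of_notMem (fun h' => lt_asymm hy h'.1) _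
    · have h' : b < x := by
        rcases lt_or_gt_of_ne hxb with h2 | h2
        · exact absurd ⟨h, h2⟩ hx
        · exact h2
      filter_upwards [Ioi_mem_nhds h'] with y hy
      exact Set.indicator_of_notMem (fun h' => lt_asymm hy h'.2) _

end Pool.Agent.Lib.HT26
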