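import Pool.Agent.Lib.HT26.Blue

open MeasureTheory Filter Topology
open scoped ENNReal NNReal

namespace Pool.Agent.Lib.HT26

theorem LIN.meas (x δ : ℝ) : MeasurableSet {y : ℝ | δ < |y - x|} :=
  measurableSet_lt measurable_const (by fun_prop)

theorem LIN.ne {x δ y : ℝ} (hδ : 0 < δ) (hy : y ∈ {y : ℝ | δ < |y - x|}) :
    (x : ℂ) - (y : ℂ) ≠ 0 := by
  intro h
  have h1 : x = y := by exact_mod_cast sub_eq_zero.mp h
  have h2 : δ < |y - x| := hy
  rw [h1, sub_self, abs_zero] at h2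
  linarith

theorem LIN.kint {f : ℝ → ℂ} (hf : Integrable f) (x : ℝ) {δ : ℝ} (hδ : 0 < δ) :
    IntegrableOn (fun y : ℝ => f y / ((x : ℂ) - (y : ℂ))) {y : ℝ | δ < |y - x|} := by
  have hm : Measurable (fun y : ℝ => ((x : ℂ) - (y : ℂ))⁻¹) := by fun_prop
  have h1 : IntegrableOn (fun y : ℝ => f y * ((x : ℂ) - (y : ℂ))⁻¹) {y : ℝ | δ < |y - x|} := by
    refine Integrable.mul_bdd (c := δ⁻¹) hf.integrableOn hm.aestronglyMeasurable ?_
    filter_upwards [ae_restrict_mem (LIN.meas x δ)] with y hy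
    have h2 : δ < |y - x| := hy
    rw [norm_inv, ← Complex.ofReal_sub, Complex.norm_real, Real.norm_eq_abs, abs_sub_comm]
    exact inv_anti₀ hδ h2.le
  exact h1.congr_fun (fun y _ => (div_eq_mul_inv _ _).symm) (LIN.meas x δ)

theorem LIN.tail {h : ℝ → ℂ} (hh : Integrable h) (x : ℝ) :
    Tendsto (fun δ : ℝ => ∫ y in {y : ℝ | δ < |y - x|}, h y) (𝓝[>] 0) (𝓝 (∫ y, h y)) := by
  have e : (fun δ : ℝ => ∫ y in {y : ℝ | δ < |y - x|}, h y) =
      fun δ : ℝ => ∫ y, ({y : ℝ | δ < |y - x|}).indicator h y := by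
    funext δ
    rw [integral_indicator (LIN.meas x δ)]
  rw [e]
  refine tendsto_integral_filter_of_dominated_convergence (fun y => ‖h y‖) ?_ ?_ hh.norm ?_
  · exact Eventually.of_forall fun δ => hh.1.indicator (LIN.meas x δ)
  · exact Eventually.of_forall fun δ => Eventually.of_forall fun y =>
      norm_indicator_le_norm_self h y
  · have h0 : ∀ᵐ y : ℝ, y ≠ x := by simp [ae_iff]
    filter_upwards [h0] with y hy
    have hp : 0 < |y - x| := abs_pos.mpr (sub_ne_zero.mpr hy)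
    refine tendsto_const_nhds.congr' ?_
    filter_upwards [Ioo_mem_nhdsGT hp] with δ hδ
    exact (Set.indicator_of_mem (show y ∈ {y : ℝ | δ < |y - x|} from hδ.2) h).symm

theorem bLIN : St_LIN := by
  intro f t f' t' a b h h'
  refine ⟨(h.1.const_mul a).add (h'.1.const_mul b), ?_⟩
  filter_upwards [h.2, h'.2] with x hx hx'
  refine ((hx.const_mul a).add (hx'.const_mul b)).congr' ?_
  filter_upwards [self_mem_nhdsWithin] with δ hδ
  have hδ' : (0 : ℝ) < δ := hδ
  have i1 := LIN.kint h.1 x hδ'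
  have i2 := LIN.kint h'.1 x hδ'
  have e : (fun y : ℝ => (a * f y + b * f' y) / ((x : ℂ) - (y : ℂ))) =
      fun y : ℝ => a * (f y / ((x : ℂ) - (y : ℂ))) + b * (f' y / ((x : ℂ) - (y : ℂ))) := by
    funext y
    ring
  unfold trunc
  rw [e, integral_add (i1.const_mul a) (i2.const_mul b), integral_const_mul, integral_const_mul]
  ring

end Pool.Agent.Lib.HT26
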