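import Pool.Agent.Lib.HT26.B_LIN

open MeasureTheory Filter Topology
open scoped ENNReal NNReal

namespace Pool.Agent.Lib.HT26

theorem MEAS.one {f : ℝ → ℂ} (hf : Integrable f) (δ : ℝ) :
    AEStronglyMeasurable (fun x => trunc f x δ) volume := by
  have hg : Measurable (hf.1.mk f) := hf.1.stronglyMeasurable_mk.measurable
  have hs : MeasurableSet {p : ℝ × ℝ | δ < |p.2 - p.1|} :=
    measurableSet_lt measurable_const (by fun_prop)
  have hF : Measurable (({p : ℝ × ℝ | δ < |p.2 - p.1|}).indicator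
      (fun p : ℝ × ℝ => hf.1.mk f p.2 / ((p.1 : ℂ) - (p.2 : ℂ)))) := by
    refine Measurable.indicator ?_ hs
    exact (hg.comp measurable_snd).div (by fun_prop)
  have hI := hF.stronglyMeasurable.integral_prod_right' (ν := (volume : Measure ℝ))
  have e : (fun x => trunc f x δ) = fun x : ℝ => (Real.pi : ℂ)⁻¹ *
      ∫ y : ℝ, ({p : ℝ × ℝ | δ < |p.2 - p.1|}).indicator
        (fun p : ℝ × ℝ => hf.1.mk f p.2 / ((p.1 : ℂ) - (p.2 : ℂ))) (x, y) := by
    funext x
    unfold trunc
    rw [← integral_indicator (LIN.meas x δ)]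
    congr 1
    refine integral_congr_ae ?_
    filter_upwards [hf.1.ae_eq_mk] with y hy
    by_cases h : δ < |y - x|
    · rw [Set.indicator_of_mem (show y ∈ {y : ℝ | δ < |y - x|} from h),
        Set.indicator_of_mem (show (x, y) ∈ {p : ℝ × ℝ | δ < |p.2 - p.1|} from h), hy]
    · rw [Set.indicator_of_notMem (show y ∉ {y : ℝ | δ < |y - x|} from h),
        Set.indicator_of_notMem (show (x, y) ∉ {p : ℝ × ℝ | δ < |p.2 - p.1|} from h)]
  rw [e]
  exact (hI.const_mul _).aestronglyMeasurable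

theorem bMEAS : St_MEAS := by
  intro f t h
  exact aestronglyMeasurable_of_tendsto_ae (𝓝[>] (0 : ℝ)) (f := fun δ x => trunc f x δ)
    (fun δ => MEAS.one h.1 δ) h.2

end Pool.Agent.Lib.HT26
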