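import Pool.Agent.Lib.HT26.Blue

open MeasureTheory Filter Topology
open scoped ENNReal NNReal

namespace Pool.Agent.Lib.HT26

theorem bNC : St_NC := by
  rintro ⟨c, hc⟩
  have hne : ∀ y : ℝ, (y : ℂ) - Complex.I ≠ 0 := by
    intro y h
    have := congrArg Complex.im h
    simp at this
  have hcont : Continuous (mz Complex.I) :=
    (Complex.continuous_ofReal.sub continuous_const).inv₀ hne
  have h1 : mz Complex.I = fun _ => c :=
    (hcont.ae_eq_iff_eq volume continuous_const).1 hc
  have h2 : mz Complex.I 0 = mz Complex.I 1 := by rw [h1]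
  unfold mz at h2
  have h3 := congrArg Complex.re (inv_injective h2)
  simp at h3

end Pool.Agent.Lib.HT26
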