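import Mathlib
import Pool.Agent.Lib.HT26.Blue

open MeasureTheory Filter Topology
open scoped ENNReal NNReal

namespace Pool.Agent.Lib.HT26

namespace VAN

theorem locInt {χ : ℝ → ℂ} (h : BM χ) : LocallyIntegrable χ volume := by
  obtain ⟨hm, M, hM⟩ := h
  rw [locallyIntegrable_iff]
  intro K hK
  exact Measure.integrableOn_of_bounded (M := M) hK.measure_lt_top.ne hm (ae_restrict_of_ae hM)

theorem ioc_zero {χ : ℝ → ℂ} (h0 : ∀ a b : ℝ, ∫ y, ind a b y * χ y = 0) (a b : ℝ) :
    ∫ y in Set.Ioc a b, χ y = 0 := by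
  rw [integral_Ioc_eq_integral_Ioo, ← integral_indicator measurableSet_Ioo, ← h0 a b]
  refine integral_congr_ae (Eventually.of_forall fun y => ?_)
  unfold ind
  by_cases hy : y ∈ Set.Ioo a b
  · simp only [Set.indicator_of_mem hy, one_mul]
  · simp only [Set.indicator_of_notMem hy, zero_mul]

end VAN

theorem bVAN : St_VAN := by
  intro χ hχ h0
  filter_upwards [_root_.LocallyIntegrable.ae_hasDerivAt_integral (VAN.locInt hχ)] with x hx
  have h1 := hx 0
  have h2 : (fun x : ℝ => ∫ t in (0 : ℝ)..x, χ t) = fun _ => (0 : ℂ) := by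
    funext y
    unfold intervalIntegral
    rw [VAN.ioc_zero h0, VAN.ioc_zero h0, sub_zero]
  rw [h2] at h1
  exact h1.unique (hasDerivAt_const x (0 : ℂ))

end Pool.Agent.Lib.HT26
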