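import Pool.Agent.Lib.HT26.Blue

open MeasureTheory Filter Topology
open scoped ENNReal NNReal

namespace Pool.Agent.Lib.HT26

namespace EXT

theorem cut_meas (w : ℝ) (n : ℕ) : MeasurableSet (cutA w n) := by
  unfold cutA
  have hm : Measurable fun y : ℝ => |y - w| := by fun_prop
  exact (measurableSet_lt measurable_const hm).inter (measurableSet_lt hm measurable_const)

theorem ext (hM : St_MEAS) (hC : St_CUT) {μ : Measure ℝ} {q : ℝ≥0∞} (c : Ctx μ q) (s : ℝ → ℂ)
    (hs : Measurable s) (w : ℝ) (C : ℝ≥0)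
    (H : ∀ (n : ℕ) (h t : ℝ → ℂ), IsHT h t → (∀ y, y ∉ cutA w n → h y = 0) →
      eLpNorm (fun x => h x * s x) q μ ≠ ⊤ →
      eLpNorm (fun x => t x * s x) q μ ≤ C * eLpNorm (fun x => h x * s x) q μ) :
    BddS μ q s := by
  refine ⟨C, fun h t hht hN => ?_⟩
  obtain ⟨G, hG, hlim, -⟩ := hC h t w hht
  have hle : ∀ n, eLpNorm (fun x => (cutA w n).indicator h x * s x) q μ ≤
      eLpNorm (fun x => h x * s x) q μ := fun n => by
    refine eLpNorm_mono fun x => ?_
    by_cases hx : x ∈ cutA w n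
    · rw [Set.indicator_of_mem hx]
    · rw [Set.indicator_of_notMem hx, zero_mul, norm_zero]
      exact norm_nonneg _
  have h1 : ∀ n, eLpNorm (fun x => G n x * s x) q μ ≤ C * eLpNorm (fun x => h x * s x) q μ :=
    fun n => (H n _ _ (hG n) (fun y hy => Set.indicator_of_notMem hy _)
      (ne_top_of_le_ne_top hN (hle n))).trans (mul_le_mul_right (hle n) _)
  have h2 : eLpNorm (fun x => t x * s x) q μ ≤
      atTop.liminf fun n => eLpNorm (fun x => G n x * s x) q μ := by
    refine Lp.eLpNorm_lim_le_liminf_eLpNorm (f := fun n x => G n x * s x)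
      (fun n => ((hM _ _ (hG n)).mono_ac c.ac).mul hs.aestronglyMeasurable) _ ?_
    filter_upwards [c.ac.ae_le hlim] with x hx
    exact hx.mul_const _
  exact h2.trans (liminf_le_of_frequently_le' (Frequently.of_forall h1))

theorem int_of_cut {h s : ℝ → ℂ} (hh : Integrable h) (hs : Measurable s) {A : Set ℝ}
    (h0 : ∀ y, y ∉ A → h y = 0) (M : ℝ) (hb : ∀ y ∈ A, ‖s y‖ ≤ M) :
    Integrable (fun y => h y * s y) := by
  refine (hh.norm.mul_const M).mono' (hh.1.mul hs.aestronglyMeasurable)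
    (Eventually.of_forall fun y => ?_)
  rw [norm_mul]
  by_cases hy : y ∈ A
  · exact mul_le_mul_of_nonneg_left (hb y hy) (norm_nonneg _)
  · rw [h0 y hy]
    simp

theorem mz_cut (z : ℂ) (n : ℕ) (y : ℝ) (hy : y ∈ cutA z.re n) : ‖mz z y‖ ≤ (n : ℝ) + 1 := by
  unfold mz
  rw [norm_inv]
  have h := Complex.abs_re_le_norm ((y : ℂ) - z)
  simp only [Complex.sub_re, Complex.ofReal_re] at h
  have h1 : 1 / ((n : ℝ) + 1) < |y - z.re| := hy.1
  have h2 : (0 : ℝ) < 1 / ((n : ℝ) + 1) := by positivity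
  have h3 := inv_anti₀ h2 (h1.le.trans h)
  rwa [one_div, inv_inv] at h3

theorem ne_cut (z : ℂ) (n : ℕ) (y : ℝ) (hy : y ∈ cutA z.re n) : (y : ℂ) - z ≠ 0 := by
  intro h0
  have h := congrArg Complex.re h0
  simp only [Complex.sub_re, Complex.ofReal_re, Complex.zero_re] at h
  have h1 : 1 / ((n : ℝ) + 1) < |y - z.re| := hy.1
  have h2 : (0 : ℝ) < 1 / ((n : ℝ) + 1) := by positivity
  rw [h, abs_zero] at h1
  linarith

theorem ne_I (y : ℝ) : (y : ℂ) - Complex.I ≠ 0 := by
  intro h0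
  have h := congrArg Complex.im h0
  simp at h

end EXT

theorem bEXT1 (hM : St_MEAS) (hC : St_CUT) (h1 : St_ID1) : St_EXT1 := by
  rintro μ q c z ⟨C, hR⟩
  refine EXT.ext hM hC c _ (mz_meas z) z.re C fun n h t hht h0 hN => ?_
  have hi := EXT.int_of_cut hht.1 (mz_meas z) h0 _ (EXT.mz_cut z n)
  have key := hR _ _ (h1 h t z hht hi) hN
  refine le_trans (le_of_eq ?_) key
  congr 1
  funext x
  simp only [mul_one]
  ring

theorem bEXT2 (hM : St_MEAS) (hC : St_CUT) (h2 : St_ID2) : St_EXT2 := by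
  rintro μ q c ⟨C, hR⟩
  have hs : Measurable fun x : ℝ => (x : ℂ) - Complex.I := by fun_prop
  refine EXT.ext hM hC c _ hs 0 C fun n h t hht h0 hN => ?_
  have hi := EXT.int_of_cut hht.1 hs h0 ((n : ℝ) + 2) (fun y hy => by
    have h1 : |y - 0| < (n : ℝ) + 1 := hy.2
    have h3 := norm_sub_le (y : ℂ) Complex.I
    rw [Complex.norm_real, Complex.norm_I, Real.norm_eq_abs] at h3
    rw [sub_zero] at h1
    linarith)
  have key := hR _ _ (h2 h t Complex.I hht hi) hN
  have e : ∫ y : ℝ, h y * ((y : ℂ) - Complex.I) * mz Complex.I y = ∫ y, h y := by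
    congr 1
    funext y
    unfold mz
    rw [mul_assoc, mul_inv_cancel₀ (EXT.ne_I y), mul_one]
  rw [e] at key
  refine le_trans (le_of_eq ?_) key
  congr 1
  funext x
  ring

theorem bEXT3 (hM : St_MEAS) (hC : St_CUT) (hL : St_LIN) (h1 : St_ID1) : St_EXT3 := by
  rintro μ q c w ⟨C, hR⟩
  have hs : Measurable fun x : ℝ => ((x : ℂ) - Complex.I) * mz w x :=
    Measurable.mul (by fun_prop) (mz_meas w)
  refine EXT.ext hM hC c _ hs w.re C fun n h t hht h0 hN => ?_
  have hi := EXT.int_of_cut hht.1 (mz_meas w) h0 _ (EXT.mz_cut w n)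
  have hf := hL _ _ _ _ 1 (w - Complex.I) hht (h1 h t w hht hi)
  have e0 : (fun y : ℝ => 1 * h y + (w - Complex.I) * (h y * mz w y)) =
      fun y : ℝ => h y * (((y : ℂ) - Complex.I) * mz w y) := by
    funext y
    by_cases hy : y ∈ cutA w.re n
    · have := EXT.ne_cut w n y hy
      unfold mz
      field_simp
      ring
    · rw [h0 y hy]
      ring
  rw [e0] at hf
  have key := hR _ _ hf hN
  have e : ∫ y : ℝ, h y * (((y : ℂ) - Complex.I) * mz w y) * mz Complex.I y =
      ∫ y, h y * mz w y := by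
    congr 1
    funext y
    have := EXT.ne_I y
    have e1 : ((y : ℂ) - Complex.I) * mz Complex.I y = 1 := mul_inv_cancel₀ this
    calc h y * (((y : ℂ) - Complex.I) * mz w y) * mz Complex.I y
        = h y * mz w y * (((y : ℂ) - Complex.I) * mz Complex.I y) := by ring
      _ = h y * mz w y := by rw [e1, mul_one]
  rw [e] at key
  refine le_trans (le_of_eq ?_) key
  refine eLpNorm_congr_ae ?_
  filter_upwards [c.ac.ae_le (ae_ne_c w)] with x hx
  have e1 : ((x : ℂ) - w) * mz w x = 1 := mul_inv_cancel₀ hx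
  linear_combination (t x) * e1

end Pool.Agent.Lib.HT26
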