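import Mathlib
import Pool.Agent.Lib.HT26.Blue

open MeasureTheory Filter Topology
open scoped ENNReal NNReal

namespace Pool.Agent.Lib.HT26

theorem pr_const {φ f : ℝ → ℂ} {c : ℂ} (h : ∀ᵐ y : ℝ, φ y = c) :
    ∫ y, f y * φ y = c * ∫ y, f y * (fun _ => (1 : ℂ)) y := by
  rw [← integral_const_mul]
  apply integral_congr_ae
  filter_upwards [h] with y hy
  rw [hy]
  ring

theorem asmN (hR1 : St_R1) (hCONST : St_CONST) (hF1 : St_FWD1) (hF2 : St_FWD2)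
    (hE1 : St_EXT1) (hE2 : St_EXT2) (hE3 : St_EXT3) (hC2 : St_CV2) (hC3 : St_CV3)
    (hC4 : St_CV4) {μ : Measure ℝ} {q : ℝ≥0∞} (hc : Ctx μ q) {φ : ℝ → ℂ} (hφ : BM φ) :
    AdmN μ q φ ↔ AdmN μ q (fun _ => 0) ∨
      (∃ c : ℂ, c ≠ 0 ∧ (∀ᵐ y : ℝ, φ y = c) ∧ ∃ z : ℂ, BddS μ q (mz z)) ∨
      (∃ c : ℂ, c ≠ 0 ∧ BFN μ q (fun y => φ y - c * mz Complex.I y) ∧
        (BddS μ q (fun x : ℝ => (x : ℂ) - Complex.I) ∨
          ∃ w : ℂ, BddS μ q (fun x : ℝ => ((x : ℂ) - Complex.I) * mz w x))) := by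
  constructor
  · intro hA
    obtain ⟨g, hg, hRK⟩ := hR1 μ q hc φ hφ hA
    by_cases hN : eLpNorm g q μ = ⊤
    · obtain ⟨c, hcc⟩ := hCONST μ q hc φ g hφ hg hRK hN
      by_cases h0 : c = 0
      · left
        obtain ⟨C, hC⟩ := hA
        refine ⟨C, fun f t hf hn _ => hC f t hf hn ?_⟩
        rw [pr_const hcc, h0, zero_mul]
      · right
        left
        refine ⟨c, h0, hcc, ?_⟩
        have hRK' : RK μ q (fun _ => 1) (fun x => c * g x) := by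
          obtain ⟨C, hC⟩ := hRK
          refine ⟨C, fun f t hf hn => ?_⟩
          have h1 := hC f t hf hn
          rw [pr_const hcc] at h1
          have e : (fun x => t x - (∫ y, f y * (fun _ => (1 : ℂ)) y) * (c * g x))
              = fun x => t x - (c * ∫ y, f y * (fun _ => (1 : ℂ)) y) * g x := by
            funext x
            ring
          exact le_of_eq_of_le (congrArg (fun F => eLpNorm F q μ) e) h1
        have hN' : eLpNorm (fun x => c * g x) q μ = ⊤ := by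
          rw [N_cmul, hN]
          exact ENNReal.mul_top (enorm_ne_zero.mpr h0)
        obtain ⟨z, hz⟩ := hF1 μ q hc _ (hg.const_mul c) hRK' hN'
        exact ⟨z, hE1 μ q hc z hz⟩
    · rcases hF2 μ q hc φ g hφ hg hRK hN with h | ⟨c, h0, hB, h⟩
      · exact Or.inl h
      · refine Or.inr (Or.inr ⟨c, h0, hB, ?_⟩)
        rcases h with h | ⟨w, h⟩
        · exact Or.inl (hE2 μ q hc h)
        · exact Or.inr ⟨w, hE3 μ q hc w h⟩
  · rintro (⟨C, hC⟩ | ⟨c, h0, hcc, z, hz⟩ | ⟨c, h0, hB, h⟩)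
    · refine ⟨C, fun f t hf hn _ => hC f t hf hn ?_⟩
      simp only [mul_zero, integral_zero]
    · obtain ⟨C, hC⟩ := hC2 μ q hc z hz
      refine ⟨C, fun f t hf hn h1 => hC f t hf hn ?_⟩
      rw [pr_const hcc] at h1
      exact (mul_eq_zero.mp h1).resolve_left h0
    · exact hC4 μ q hc φ c hφ h0 (hC3 μ q hc h) hB

theorem asm (hBRG : St_BRG) (hR1 : St_R1) (hCONST : St_CONST) (hF1 : St_FWD1) (hF2 : St_FWD2)
    (hE1 : St_EXT1) (hE2 : St_EXT2) (hE3 : St_EXT3) (hC2 : St_CV2) (hC3 : St_CV3)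
    (hC4 : St_CV4) (p : ℝ) (hp : 1 < p) (U : ℝ → ℝ) (hU0 : ∀ x, 0 ≤ U x)
    (hU : LocallyIntegrable U volume) (φ : ℝ → ℂ) (hφ : AEStronglyMeasurable φ volume) (M : ℝ)
    (hM : ∀ᵐ y : ℝ, ‖φ y‖ ≤ M) :
    Adm p φ U ↔ Adm p (fun _ => 0) U ∨
      (∃ c : ℂ, c ≠ 0 ∧ (∀ᵐ y : ℝ, φ y = c) ∧
        ∃ z : ℂ, Adm p (fun _ => 0) (fun x => U x / ‖(x : ℂ) - z‖ ^ p)) ∨
      (∃ c : ℂ, c ≠ 0 ∧ BddFun p U (fun y => φ y - c / ((y : ℂ) - Complex.I)) ∧
        (Adm p (fun _ => 0) (fun x => U x * ‖(x : ℂ) - Complex.I‖ ^ p) ∨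
          ∃ w : ℂ, Adm p (fun _ => 0)
            (fun x => U x * ‖(x : ℂ) - Complex.I‖ ^ p / ‖(x : ℂ) - w‖ ^ p))) := by
  obtain ⟨hc, hA, hB, hS⟩ := hBRG p U hp hU0 hU _ rfl
  have e1 : ∀ z : ℂ, Adm p (fun _ => 0) (fun x => U x / ‖(x : ℂ) - z‖ ^ p) ↔ _ := fun z =>
    hS (mz z) _ (mz_meas z) (fun x => by
      unfold mz
      rw [norm_inv, Real.inv_rpow (norm_nonneg _), div_eq_mul_inv])
  have mI : Measurable (fun x : ℝ => (x : ℂ) - Complex.I) := by fun_prop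
  have e2 : Adm p (fun _ => 0) (fun x => U x * ‖(x : ℂ) - Complex.I‖ ^ p) ↔ _ :=
    hS (fun x : ℝ => (x : ℂ) - Complex.I) _ mI (fun x => rfl)
  have e3 : ∀ w : ℂ, Adm p (fun _ => 0)
      (fun x => U x * ‖(x : ℂ) - Complex.I‖ ^ p / ‖(x : ℂ) - w‖ ^ p) ↔ _ := fun w =>
    hS (fun x : ℝ => ((x : ℂ) - Complex.I) * mz w x) _ (mI.mul (mz_meas w)) (fun x => by
      unfold mz
      rw [norm_mul, Real.mul_rpow (norm_nonneg _) (norm_nonneg _), norm_inv,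
        Real.inv_rpow (norm_nonneg _), div_eq_mul_inv, mul_assoc])
  have e4 : ∀ c : ℂ, BddFun p U (fun y => φ y - c / ((y : ℂ) - Complex.I)) ↔ _ := fun c =>
    hB (fun y => φ y - c * mz Complex.I y)
  rw [hA φ, hA (fun _ => 0), asmN hR1 hCONST hF1 hF2 hE1 hE2 hE3 hC2 hC3 hC4 hc ⟨hφ, M, hM⟩]
  refine or_congr Iff.rfl (or_congr ?_ ?_)
  · exact exists_congr fun c => and_congr Iff.rfl (and_congr Iff.rfl
      (exists_congr fun z => (e1 z).symm))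
  · exact exists_congr fun c => and_congr Iff.rfl (and_congr (e4 c).symm
      (or_congr e2.symm (exists_congr fun w => (e3 w).symm)))

end Pool.Agent.Lib.HT26
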