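import Mathlib
import Pool.Agent.Lib.HT26.Blue

open MeasureTheory Filter Topology
open scoped ENNReal NNReal

namespace Pool.Agent.Lib.HT26

theorem bCOM (hMEAS : St_MEAS) (hID1 : St_ID1) : St_COM := by
  intro μ q hc φ g hφ hg hR z hz
  obtain ⟨C, hC⟩ := hR
  set b : ℝ≥0 := Real.toNNReal |z.im|⁻¹ with hb
  have hbe : ENNReal.ofReal |z.im|⁻¹ = (b : ℝ≥0∞) := rfl
  refine ⟨C * b + b * C, fun f t hf hN => ?_⟩
  have hfm : Integrable (fun y => f y * mz z y) := (mz_BM hz).int hf.1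
  have hT := hID1 f t z hf hfm
  have h1 : eLpNorm (fun x => f x * mz z x) q μ ≤ b * eLpNorm f q μ := hbe ▸ N_mz hz f
  have h1' : eLpNorm (fun x => f x * mz z x) q μ ≠ ⊤ :=
    ne_top_of_le_ne_top (ENNReal.mul_ne_top ENNReal.coe_ne_top hN) h1
  have h2 := hC _ _ hT h1'
  have h3 := hC f t hf hN
  have h4 : eLpNorm (fun x => (t x - (∫ y, f y * φ y) * g x) * mz z x) q μ
      ≤ b * (C * eLpNorm f q μ) :=
    (hbe ▸ N_mz hz (fun x => t x - (∫ y, f y * φ y) * g x)).trans (by gcongr)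
  have ht : AEStronglyMeasurable t μ := (hMEAS f t hf).mono_ac hc.ac
  have hm : AEStronglyMeasurable (mz z) μ := (mz_meas z).aestronglyMeasurable
  have e : (∫ y, f y * (mz z y * φ y)) = ∫ y, f y * mz z y * φ y := by simp only [mul_assoc]
  have key : (fun x => (∫ y, f y * mz z y) * ((Real.pi : ℂ)⁻¹ * mz z x)
      - (∫ y, f y * (mz z y * φ y)) * g x + (∫ y, f y * φ y) * (mz z x * g x))
      = fun x => ((t x + (Real.pi : ℂ)⁻¹ * ∫ y, f y * mz z y) * mz z x
        - (∫ y, f y * mz z y * φ y) * g x) - (t x - (∫ y, f y * φ y) * g x) * mz z x := by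
    funext x
    rw [e]
    ring
  rw [key]
  refine (N_sub hc.one ?_ ?_).trans ?_
  · exact ((ht.add aestronglyMeasurable_const).mul hm).sub (hg.const_mul _)
  · exact (ht.sub (hg.const_mul _)).mul hm
  · have h5 : (C : ℝ≥0∞) * eLpNorm (fun x => f x * mz z x) q μ ≤ C * (b * eLpNorm f q μ) := by
      gcongr
    refine (add_le_add (h2.trans h5) h4).trans (le_of_eq ?_)
    push_cast
    ring

end Pool.Agent.Lib.HT26
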