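import Mathlib
import Pool.Agent.Lib.HT26.Blue

open MeasureTheory Filter Topology
open scoped ENNReal NNReal

namespace Pool.Agent.Lib.HT26

namespace CONST

theorem N_eq {μ : Measure ℝ} {q : ℝ≥0∞} {a b : ℝ → ℂ} (h : ∀ x, a x = b x) :
    eLpNorm a q μ = eLpNorm b q μ := by
  rw [show a = b from funext h]

/-- three bounded functions, kernel inclusion on D gives an a.e. linear relation -/
theorem rel (hLIN : St_LIN) (hIND : St_IND) (hVAN : St_VAN) {μ : Measure ℝ} {q : ℝ≥0∞}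
    (hc : Ctx μ q) {φ ψ χ : ℝ → ℂ} (hφ : BM φ) (hψ : BM ψ) (hχ : BM χ)
    (H : ∀ f t, IsHT f t → eLpNorm f q μ ≠ ⊤ → ∫ y, f y * φ y = 0 → ∫ y, f y * ψ y = 0 →
      ∫ y, f y * χ y = 0) :
    ∃ a b : ℂ, ∀ᵐ y : ℝ, χ y = a * φ y + b * ψ y := by
  let D : Submodule ℂ (ℝ → ℂ) :=
    { carrier := {f | (∃ t, IsHT f t) ∧ eLpNorm f q μ ≠ ⊤}
      add_mem' := by
        rintro f f' ⟨⟨t, ht⟩, hN⟩ ⟨⟨t', ht'⟩, hN'⟩
        have h := hLIN f t f' t' 1 1 ht ht'
        simp only [one_mul] at h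
        refine ⟨⟨_, h⟩, ?_⟩
        exact ne_top_of_le_ne_top (ENNReal.add_ne_top.2 ⟨hN, hN'⟩)
          (eLpNorm_add_le (ht.1.1.mono_ac hc.ac) (ht'.1.1.mono_ac hc.ac) hc.one)
      zero_mem' := by
        obtain ⟨t, ht⟩ := hIND 0 1
        have h := hLIN _ t _ t 0 0 ht ht
        simp only [zero_mul, add_zero] at h
        exact ⟨⟨_, h⟩, by simp⟩
      smul_mem' := by
        rintro c f ⟨⟨t, ht⟩, hN⟩
        have h := hLIN f t f t c 0 ht ht
        simp only [zero_mul, add_zero] at h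
        refine ⟨⟨_, h⟩, ?_⟩
        rw [eLpNorm_const_smul]
        exact ENNReal.mul_ne_top enorm_ne_top hN }
  let L : ∀ κ : ℝ → ℂ, BM κ → D →ₗ[ℂ] ℂ := fun κ hκ =>
    { toFun := fun f => ∫ y, f.1 y * κ y
      map_add' := by
        rintro ⟨f, ⟨t, ht⟩, _⟩ ⟨f', ⟨t', ht'⟩, _⟩
        simp only [Submodule.coe_add, Pi.add_apply, add_mul]
        exact integral_add (hκ.int ht.1) (hκ.int ht'.1)
      map_smul' := by
        rintro c ⟨f, hf⟩
        simp only [Submodule.coe_smul, Pi.smul_apply, smul_eq_mul, mul_assoc, RingHom.id_apply]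
        exact integral_const_mul _ _ }
  have hk : ⨅ i, LinearMap.ker (![L φ hφ, L ψ hψ] i) ≤ LinearMap.ker (L χ hχ) := by
    intro f hf
    rw [Submodule.mem_iInf] at hf
    obtain ⟨⟨t, ht⟩, hN⟩ := f.2
    exact H f.1 t ht hN (hf 0) (hf 1)
  have hs := mem_span_of_iInf_ker_le_ker hk
  rw [Submodule.mem_span_range_iff_exists_fun] at hs
  obtain ⟨c, hcs⟩ := hs
  refine ⟨c 0, c 1, ?_⟩
  have hB : BM (fun y => χ y - c 0 * φ y - c 1 * ψ y) :=
    (hχ.sub ((BM.const _).mul hφ)).sub ((BM.const _).mul hψ)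
  have hz := hVAN _ hB (fun a b => by
    obtain ⟨t, ht⟩ := hIND a b
    have h1 := LinearMap.congr_fun hcs ⟨ind a b, ⟨t, ht⟩, N_ind hc a b⟩
    simp only [Fin.sum_univ_two, Matrix.cons_val_zero, Matrix.cons_val_one,
      LinearMap.add_apply, LinearMap.smul_apply, smul_eq_mul] at h1
    change c 0 * (∫ y, ind a b y * φ y) + c 1 * (∫ y, ind a b y * ψ y)
      = ∫ y, ind a b y * χ y at h1
    have e : (fun y => ind a b y * (χ y - c 0 * φ y - c 1 * ψ y))
        = fun y => (ind a b y * χ y - c 0 * (ind a b y * φ y)) - c 1 * (ind a b y * ψ y) := by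
      funext y
      ring
    have i1 : Integrable (fun y => ind a b y * χ y - c 0 * (ind a b y * φ y)) :=
      (hχ.int ht.1).sub ((hφ.int ht.1).const_mul _)
    rw [e, integral_sub i1
      ((hψ.int ht.1).const_mul _), integral_sub (hχ.int ht.1) ((hφ.int ht.1).const_mul _),
      integral_const_mul, integral_const_mul, ← h1]
    ring)
  filter_upwards [hz] with y hy
  linear_combination hy

theorem step (hLIN : St_LIN) (hIND : St_IND) (hVAN : St_VAN) (hCOM : St_COM)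
    {μ : Measure ℝ} {q : ℝ≥0∞} (hc : Ctx μ q) {φ g : ℝ → ℂ} (hφ : BM φ)
    (hg : AEStronglyMeasurable g μ) (hR : RK μ q φ g) (hN : eLpNorm g q μ = ⊤) {z : ℂ}
    (hz : z.im ≠ 0) : ∃ a b : ℂ, ∀ᵐ y : ℝ, φ y * (1 - a * ((y : ℂ) - z)) = b := by
  obtain ⟨C, hC⟩ := hCOM μ q hc φ g hφ hg hR z hz
  obtain ⟨a, b, hab⟩ := rel hLIN hIND hVAN hc hφ (mz_BM hz) ((mz_BM hz).mul hφ)
    (fun f t hf hNf h1 h2 => by
      have h : eLpNorm (fun x => (-∫ y, f y * (mz z y * φ y)) * g x) q μ ≤ C * eLpNorm f q μ :=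
        le_of_eq_of_le (N_eq fun x => by rw [h1, h2]; ring) (hC f t hf hNf)
      rw [N_cmul, hN] at h
      by_contra hne
      rw [ENNReal.mul_top (by simpa using hne)] at h
      exact ENNReal.mul_ne_top ENNReal.coe_ne_top hNf (top_le_iff.1 h))
  refine ⟨a, b, ?_⟩
  filter_upwards [hab, ae_ne_c z] with y hy h0
  unfold mz at hy
  field_simp at hy
  linear_combination hy

theorem two_pts {P : ℝ → Prop} (h : ∀ᵐ y : ℝ, P y) : ∃ y y' : ℝ, y ≠ y' ∧ P y ∧ P y' := by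
  obtain ⟨y, hy⟩ := h.exists
  have h2 : ∀ᵐ y' : ℝ, y' ≠ y := by simp [ae_iff]
  obtain ⟨y', h3, h4⟩ := (h.and h2).exists
  exact ⟨y, y', h4.symm, hy, h3⟩

end CONST

theorem bCONST (hLIN : St_LIN) (hIND : St_IND) (hVAN : St_VAN)
    (hCOM : St_COM) : St_CONST := by
  intro μ q hc φ g hφ hg hR hN
  obtain ⟨a, b, hab⟩ := CONST.step hLIN hIND hVAN hCOM hc hφ hg hR hN
    (z := Complex.I) (by simp)
  by_cases ha : a = 0
  · exact ⟨b, by filter_upwards [hab] with y hy; simpa [ha] using hy⟩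
  set z : ℂ := Complex.I + a⁻¹ with hzd
  set c : ℂ := -b * a⁻¹ with hcd
  have h1 : ∀ᵐ y : ℝ, φ y * ((y : ℂ) - z) = c := by
    filter_upwards [hab] with y hy
    rw [hzd, hcd]
    field_simp
    linear_combination -hy
  by_cases hc0 : c = 0
  · refine ⟨0, ?_⟩
    filter_upwards [h1, ae_ne_c z] with y hy h0
    rw [hc0] at hy
    exact (mul_eq_zero.1 hy).resolve_right h0
  exfalso
  by_cases hz : z.im = 0
  · obtain ⟨M, hM⟩ := hφ.2
    have hcp : 0 < ‖c‖ := norm_pos_iff.2 hc0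
    set r : ℝ := ‖c‖ / (|M| + 1) with hr
    have hrp : 0 < r := by positivity
    have hne : (ae (volume.restrict (Set.Ioo z.re (z.re + r)))).NeBot := by
      rw [ae_neBot]
      intro h0
      rw [Measure.restrict_eq_zero, Real.volume_Ioo] at h0
      simp only [add_sub_cancel_left, ENNReal.ofReal_eq_zero] at h0
      linarith
    obtain ⟨y, ⟨hy1, hy2⟩, hy3⟩ := ((ae_restrict_of_ae (h1.and hM)).and
      (ae_restrict_mem (μ := volume) (measurableSet_Ioo (a := z.re) (b := z.re + r)))).exists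
    have e : (y : ℂ) - z = ((y - z.re : ℝ) : ℂ) := by
      apply Complex.ext <;> simp [hz]
    have h5 : ‖c‖ = ‖φ y‖ * (y - z.re) := by
      rw [← hy1, norm_mul, e, Complex.norm_real, Real.norm_eq_abs, abs_of_pos (by linarith [hy3.1])]
    have h6 : ‖φ y‖ * (y - z.re) ≤ |M| * r :=
      mul_le_mul (hy2.trans (le_abs_self M)) (by linarith [hy3.2]) (by linarith [hy3.1])
        (abs_nonneg M)
    have h7 : (|M| + 1) * r = ‖c‖ := by
      rw [hr]
      field_simp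
    nlinarith
  · obtain ⟨a', b', hab'⟩ := CONST.step hLIN hIND hVAN hCOM hc hφ hg hR hN hz
    have h2 : ∀ᵐ y : ℝ, c = (b' + a' * c) * ((y : ℂ) - z) := by
      filter_upwards [h1, hab'] with y hy hy'
      linear_combination ((y : ℂ) - z) * hy' - (1 - a' * ((y : ℂ) - z)) * hy
    obtain ⟨y, y', hne, e1, e2⟩ := CONST.two_pts h2
    have h3 : (b' + a' * c) * ((y : ℂ) - y') = 0 := by linear_combination e2 - e1
    have h4 : (y : ℂ) - y' ≠ 0 := sub_ne_zero.2 (by exact_mod_cast hne)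
    rw [(mul_eq_zero.1 h3).resolve_right h4, zero_mul] at e1
    exact hc0 e1

end Pool.Agent.Lib.HT26
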