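import Pool.Agent.Lib.HT26.B_ID1

open MeasureTheory Filter Topology
open scoped ENNReal NNReal

namespace Pool.Agent.Lib.HT26

theorem CV3.ne (x : ℝ) : (x : ℂ) - Complex.I ≠ 0 := by
  intro h
  have := congrArg Complex.im h
  simp at this

theorem bCV3 : St_CV3 := by
  intro μ q hc hB
  have hI : Complex.I.im ≠ 0 := by simp
  rcases hB with ⟨C, hC⟩ | ⟨w, C, hC⟩
  · refine ⟨C, fun f t h hN h0 => ?_⟩
    have h1 := bID1 f t Complex.I h ((mz_BM hI).int h.1)
    have e1 : (fun x : ℝ => f x * mz Complex.I x * ((x : ℂ) - Complex.I)) = f := by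
      funext x
      have := CV3.ne x
      unfold mz
      field_simp
    have e2 : (fun x : ℝ => (t x + (Real.pi : ℂ)⁻¹ * ∫ y, f y * mz Complex.I y) *
        mz Complex.I x * ((x : ℂ) - Complex.I)) = t := by
      funext x
      have := CV3.ne x
      rw [h0, mul_zero, add_zero]
      unfold mz
      field_simp
    have h2 := hC _ _ h1 (by rw [e1]; exact hN)
    rw [e1, e2] at h2
    exact h2
  · refine ⟨C, fun f t h hN h0 => ?_⟩
    have h1 := bLIN _ _ _ _ 1 (-(w - Complex.I)) h
      (bID1 f t Complex.I h ((mz_BM hI).int h.1))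
    have e1 : (fun x : ℝ => (1 * f x + -(w - Complex.I) * (f x * mz Complex.I x)) *
        (((x : ℂ) - Complex.I) * mz w x)) =ᵐ[μ] f := by
      refine hc.ac.ae_le ?_
      filter_upwards [ae_ne_c w] with x hx
      have := CV3.ne x
      unfold mz
      field_simp
      ring
    have e2 : (fun x : ℝ => (1 * t x + -(w - Complex.I) *
        ((t x + (Real.pi : ℂ)⁻¹ * ∫ y, f y * mz Complex.I y) * mz Complex.I x)) *
        (((x : ℂ) - Complex.I) * mz w x)) =ᵐ[μ] t := by
      refine hc.ac.ae_le ?_
      filter_upwards [ae_ne_c w] with x hx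
      have := CV3.ne x
      rw [h0, mul_zero, add_zero]
      unfold mz
      field_simp
      ring
    have h2 := hC _ _ h1 (by rw [eLpNorm_congr_ae e1]; exact hN)
    rw [eLpNorm_congr_ae e1, eLpNorm_congr_ae e2] at h2
    exact h2

end Pool.Agent.Lib.HT26
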