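import Pool.Agent.Lib.HT26.Blue

open MeasureTheory Filter Topology
open scoped ENNReal NNReal

namespace Pool.Agent.Lib.HT26

theorem bCV4 (hMEAS : St_MEAS) (hR1 : St_R1) (hCONST : St_CONST) (hNC : St_NC) : St_CV4 := by
  intro μ q hc φ c hφ hc0 hA ⟨K, hK⟩
  have hm : BM (mz Complex.I) := mz_BM (by simp)
  obtain ⟨g, hg, hR⟩ := hR1 μ q hc _ hm hA
  have hgN : eLpNorm g q μ ≠ ⊤ := fun h => hNC (hCONST μ q hc _ g hm hg hR h)
  obtain ⟨C, hC⟩ := hR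
  refine ⟨C + ‖c⁻¹‖₊ * K * (eLpNorm g q μ).toNNReal, fun f t hf hfN h0 => ?_⟩
  set s : ℂ := ∫ y, f y * mz Complex.I y with hs
  have h1 : ∫ y, f y * (φ y - c * mz Complex.I y) = -(s * c) := by
    have h2 : (fun y => f y * (φ y - c * mz Complex.I y)) =
        fun y => f y * φ y - f y * mz Complex.I y * c := by
      funext y; ring
    rw [h2, integral_sub (hφ.int hf.1) ((hm.int hf.1).mul_const c), integral_mul_const, h0,
      zero_sub]
  have h3 := hK f t hf hfN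
  rw [h1, enorm_neg] at h3
  have h4 : ‖s‖ₑ ≤ ‖c⁻¹‖ₑ * (K * eLpNorm f q μ) := by
    calc ‖s‖ₑ = ‖c⁻¹ * (s * c)‖ₑ := by
          rw [mul_comm s c, ← mul_assoc, inv_mul_cancel₀ hc0, one_mul]
      _ = ‖c⁻¹‖ₑ * ‖s * c‖ₑ := enorm_mul _ _
      _ ≤ _ := mul_le_mul_right h3 _
  have ht : AEStronglyMeasurable t μ := (hMEAS f t hf).mono_ac hc.ac
  have h5 : t = fun x => (t x - s * g x) + s * g x := by
    funext x; ring
  have h6 : eLpNorm t q μ ≤ eLpNorm (fun x => t x - s * g x) q μ + ‖s‖ₑ * eLpNorm g q μ := by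
    rw [← N_cmul]
    conv_lhs => rw [h5]
    exact N_add hc.one (ht.sub (hg.const_mul s)) (hg.const_mul s)
  refine h6.trans ?_
  rw [ENNReal.coe_add, ENNReal.coe_mul, ENNReal.coe_mul, ENNReal.coe_toNNReal hgN, add_mul]
  refine add_le_add (hC f t hf hfN) ?_
  calc ‖s‖ₑ * eLpNorm g q μ ≤ ‖c⁻¹‖ₑ * (K * eLpNorm f q μ) * eLpNorm g q μ :=
        mul_le_mul_left h4 _
    _ = _ := by rw [enorm_eq_nnnorm]; ring

end Pool.Agent.Lib.HT26
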