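import Pool.Agent.Lib.HT26.Blue

open MeasureTheory Filter Topology
open scoped ENNReal NNReal

namespace Pool.Agent.Lib.HT26

namespace FUN

theorem comb (hLIN : St_LIN) {f t e te : ℝ → ℂ} (c : ℂ) (h : IsHT f t) (he : IsHT e te) :
    IsHT (fun y => f y - c * e y) (fun x => t x - c * te x) := by
  have h3 := hLIN f t e te 1 (-c) h he
  simp only [one_mul, neg_mul, ← sub_eq_add_neg] at h3
  exact h3

theorem int_comb {f e χ : ℝ → ℂ} (c : ℂ) (hχ : BM χ) (h : Integrable f) (he : Integrable e) :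
    ∫ y, (f y - c * e y) * χ y = (∫ y, f y * χ y) - c * ∫ y, e y * χ y := by
  simp only [sub_mul, mul_assoc]
  rw [integral_sub (hχ.int h) ((hχ.int he).const_mul c), integral_const_mul]

theorem int_diff {f χ ψ : ℝ → ℂ} (c : ℂ) (hχ : BM χ) (hψ : BM ψ) (h : Integrable f) :
    ∫ y, f y * (χ y - c * ψ y) = (∫ y, f y * χ y) - (∫ y, f y * ψ y) * c := by
  have h1 : (fun y => f y * (χ y - c * ψ y)) = fun y => f y * χ y - f y * ψ y * c := by
    funext y; ring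
  rw [h1, integral_sub (hχ.int h) ((hψ.int h).mul_const c), integral_mul_const]

theorem N_comb {μ : Measure ℝ} {q : ℝ≥0∞} (hc : Ctx μ q) {f e : ℝ → ℂ} (c : ℂ)
    (h : Integrable f) (he : Integrable e) :
    eLpNorm (fun y => f y - c * e y) q μ ≤ eLpNorm f q μ + ‖c‖ₑ * eLpNorm e q μ := by
  rw [← N_cmul]
  exact N_sub hc.one (h.aestronglyMeasurable.mono_ac hc.ac)
    ((he.aestronglyMeasurable.mono_ac hc.ac).const_mul c)

theorem tend (K : ℝ≥0) (a b : ℝ≥0∞) (hb : b ≠ ⊤) :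
    Tendsto (fun k : ℕ => (K : ℝ≥0∞) * (a + b * (2 : ℝ≥0∞)⁻¹ ^ k)) atTop (𝓝 (K * a)) := by
  have h1 : Tendsto (fun k : ℕ => (2 : ℝ≥0∞)⁻¹ ^ k) atTop (𝓝 0) :=
    ENNReal.tendsto_pow_atTop_nhds_zero_of_lt_one (by simp)
  have h2 := ENNReal.Tendsto.const_mul (a := b) h1 (Or.inr hb)
  have h3 := ENNReal.Tendsto.const_mul (a := (K : ℝ≥0∞)) (h2.const_add a)
    (Or.inr ENNReal.coe_ne_top)
  rw [mul_zero, add_zero] at h3
  exact h3

end FUN

theorem bFUN (hLIN : St_LIN) (hSEQ : St_SEQ) : St_FUN := by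
  intro μ q hc χ ψ hχ hψ ⟨K, hK⟩
  have key : ∀ f t e te, IsHT f t → IsHT e te → eLpNorm f q μ ≠ ⊤ → eLpNorm e q μ ≠ ⊤ →
      ∫ y, e y * ψ y = 1 →
      ‖(∫ y, f y * χ y) - (∫ y, f y * ψ y) * ∫ y, e y * χ y‖ₑ ≤
        K * (eLpNorm f q μ + ‖∫ y, f y * ψ y‖ₑ * eLpNorm e q μ) := by
    intro f t e te hf he hfN heN he1
    have hN := FUN.N_comb hc (∫ y, f y * ψ y) hf.1 he.1
    have h1 := hK _ _ (FUN.comb hLIN (∫ y, f y * ψ y) hf he)
      (ne_top_of_le_ne_top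
        (ENNReal.add_ne_top.2 ⟨hfN, ENNReal.mul_ne_top enorm_ne_top heN⟩) hN)
      (by rw [FUN.int_comb _ hψ hf.1 he.1, he1, mul_one, sub_self])
    rw [FUN.int_comb _ hχ hf.1 he.1] at h1
    exact h1.trans (mul_le_mul_right hN _)
  rcases hSEQ μ q hc ψ (fun _ => 0) hψ (BM.const 0) with ⟨K', hK'⟩ | ⟨h, t, hh⟩
  · by_cases hz : ∃ f t, IsHT f t ∧ eLpNorm f q μ ≠ ⊤ ∧ ∫ y, f y * ψ y ≠ 0
    · obtain ⟨e0, t0, he0, hN0, hne⟩ := hz
      have h3 := hLIN e0 t0 e0 t0 (∫ y, e0 y * ψ y)⁻¹ 0 he0 he0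
      simp only [zero_mul, add_zero] at h3
      set e : ℝ → ℂ := fun y => (∫ y, e0 y * ψ y)⁻¹ * e0 y with he
      have heN : eLpNorm e q μ ≠ ⊤ := by
        rw [he, N_cmul]
        exact ENNReal.mul_ne_top enorm_ne_top hN0
      have he1 : ∫ y, e y * ψ y = 1 := by
        simp only [he, mul_assoc]
        rw [integral_const_mul, inv_mul_cancel₀ hne]
      refine ⟨∫ y, e y * χ y, K * (1 + K' * (eLpNorm e q μ).toNNReal), fun f t hf hfN => ?_⟩
      rw [FUN.int_diff _ hχ hψ hf.1]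
      refine (key f t e _ hf h3 hfN heN he1).trans ?_
      have h4 := hK' f t hf hfN (by simp)
      push_cast
      rw [ENNReal.coe_toNNReal heN, mul_assoc]
      refine mul_le_mul_right ?_ _
      rw [add_mul, one_mul, mul_right_comm]
      exact add_le_add le_rfl (mul_le_mul_left h4 _)
    · refine ⟨0, K, fun f t hf hfN => ?_⟩
      have h0 : ∫ y, f y * ψ y = 0 := by
        by_contra hne
        exact hz ⟨f, t, hf, hfN, hne⟩
      rw [FUN.int_diff _ hχ hψ hf.1, mul_zero, sub_zero]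
      exact hK f t hf hfN h0
  · have hfin : ∀ k, eLpNorm (h k) q μ ≠ ⊤ := fun k =>
      ne_top_of_le_ne_top (ENNReal.pow_ne_top (by simp)) (hh k).2.2.2
    set a : ℕ → ℂ := fun k => ∫ y, h k y * χ y with ha
    have hd : ∀ n, edist (a n) (a (n + 1)) ≤ (K * 2 : ℝ≥0∞) * (2 : ℝ≥0∞)⁻¹ ^ n := by
      intro n
      have h1 := key (h n) (t n) (h (n + 1)) (t (n + 1)) (hh n).1 (hh (n + 1)).1 (hfin n)
        (hfin (n + 1)) (hh (n + 1)).2.2.1
      rw [(hh n).2.2.1, one_mul, enorm_one, one_mul] at h1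
      rw [edist_eq_enorm_sub, mul_assoc]
      refine h1.trans (mul_le_mul_right ?_ _)
      rw [two_mul]
      refine add_le_add (hh n).2.2.2 ((hh (n + 1)).2.2.2.trans ?_)
      exact pow_le_pow_of_le_one zero_le (by simp) (Nat.le_succ n)
    obtain ⟨c, hc'⟩ := cauchySeq_tendsto_of_complete
      (cauchySeq_of_edist_le_geometric (2 : ℝ≥0∞)⁻¹ (K * 2) (by simp)
        (ENNReal.mul_ne_top ENNReal.coe_ne_top (by simp)) hd)
    refine ⟨c, K, fun f tf hf hfN => ?_⟩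
    rw [FUN.int_diff _ hχ hψ hf.1]
    have h1 : Tendsto (fun k => ‖(∫ y, f y * χ y) - (∫ y, f y * ψ y) * a k‖ₑ) atTop
        (𝓝 ‖(∫ y, f y * χ y) - (∫ y, f y * ψ y) * c‖ₑ) :=
      ((hc'.const_mul _).const_sub _).enorm
    refine le_of_tendsto_of_tendsto' h1
      (FUN.tend K (eLpNorm f q μ) ‖∫ y, f y * ψ y‖ₑ enorm_ne_top) fun k => ?_
    refine (key f tf (h k) (t k) hf (hh k).1 hfN (hfin k) (hh k).2.2.1).trans ?_
    exact mul_le_mul_right (add_le_add le_rfl (mul_le_mul_right (hh k).2.2.2 _)) _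

end Pool.Agent.Lib.HT26
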