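import Mathlib
import Pool.Agent.Lib.HT26.Blue
import Pool.Agent.Lib.HT26.B_CONST

open MeasureTheory Filter Topology
open scoped ENNReal NNReal

namespace Pool.Agent.Lib.HT26

namespace FWD

variable {μ : Measure ℝ} {q : ℝ≥0∞}

theorem badd (hq : 1 ≤ q) {a w : ℝ → ℂ} (ha : AEStronglyMeasurable a μ)
    (hw : AEStronglyMeasurable w μ) (hN : eLpNorm w q μ ≠ ⊤) {s : ℂ} {C K : ℝ≥0} {n : ℝ≥0∞}
    (h1 : eLpNorm a q μ ≤ C * n) (h2 : ‖s‖ₑ ≤ K * n) :
    eLpNorm (fun x => a x + s * w x) q μ ≤ ((C + K * (eLpNorm w q μ).toNNReal : ℝ≥0) : ℝ≥0∞) * n := by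
  refine (N_add hq ha (hw.const_mul s)).trans ?_
  rw [N_cmul]
  push_cast
  rw [ENNReal.coe_toNNReal hN, add_mul]
  refine add_le_add h1 ?_
  calc ‖s‖ₑ * eLpNorm w q μ ≤ (K * n) * eLpNorm w q μ := by gcongr
    _ = K * eLpNorm w q μ * n := by ring

theorem to_zero {a : ℕ → ℝ≥0∞} {C : ℝ≥0} (h : ∀ k, a k ≤ C * (2 : ℝ≥0∞)⁻¹ ^ k) :
    Tendsto a atTop (𝓝 0) := by
  have h1 : Tendsto (fun k : ℕ => (C : ℝ≥0∞) * (2 : ℝ≥0∞)⁻¹ ^ k) atTop (𝓝 (C * 0)) :=
    ENNReal.Tendsto.const_mul (ENNReal.tendsto_pow_atTop_nhds_zero_of_lt_one (by simp))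
      (Or.inr ENNReal.coe_ne_top)
  rw [mul_zero] at h1
  exact tendsto_of_tendsto_of_tendsto_of_le_of_le tendsto_const_nhds h1 (fun _ => zero_le) h

theorem half_ne {a : ℝ≥0∞} {k : ℕ} (h : a ≤ (2 : ℝ≥0∞)⁻¹ ^ k) : a ≠ ⊤ :=
  ne_top_of_le_ne_top (ENNReal.pow_ne_top (by simp)) h

theorem RK_congr {φ g g' : ℝ → ℂ} (h : RK μ q φ g) (e : ∀ᵐ x ∂μ, g x = g' x) : RK μ q φ g' := by
  obtain ⟨C, hC⟩ := h
  refine ⟨C, fun f t hf hN => le_of_eq_of_le (eLpNorm_congr_ae ?_) (hC f t hf hN)⟩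
  filter_upwards [e] with x hx
  rw [hx]

theorem BFN_of_BKer {χ : ℝ → ℂ} (h : BKer μ q χ (fun _ => 0)) : BFN μ q χ := by
  obtain ⟨K, hK⟩ := h
  exact ⟨K, fun f t hf hN => hK f t hf hN (by simp)⟩

theorem mI_ne (x : ℝ) : (x : ℂ) - Complex.I ≠ 0 := by
  intro h
  have := congrArg Complex.im h
  simp at this

theorem adm0_of_BFN (hMEAS : St_MEAS) (hc : Ctx μ q) {φ g : ℝ → ℂ}
    (hg : AEStronglyMeasurable g μ) (hR : RK μ q φ g) (hN : eLpNorm g q μ ≠ ⊤)
    (hB : BFN μ q φ) : AdmN μ q (fun _ => 0) := by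
  obtain ⟨C, hC⟩ := hR
  obtain ⟨K, hK⟩ := hB
  refine ⟨_, fun f t hf hNf _ => le_of_eq_of_le ?_ (badd hc.one
    (((hMEAS f t hf).mono_ac hc.ac).sub (hg.const_mul (∫ y, f y * φ y))) hg hN
    (hC f t hf hNf) (hK f t hf hNf))⟩
  refine CONST.N_eq fun x => ?_
  simp

theorem pr_sub {φ ψ f : ℝ → ℂ} (hφ : BM φ) (hψ : BM ψ) (hf : Integrable f) (c : ℂ) :
    ∫ y, f y * (φ y - c * ψ y) = (∫ y, f y * φ y) - c * ∫ y, f y * ψ y := by
  rw [← integral_const_mul, ← integral_sub (hφ.int hf) ((hψ.int hf).const_mul c)]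
  congr 1
  funext y
  ring

end FWD

open FWD in
theorem bFWD1 (hLIN : St_LIN) (hMEAS : St_MEAS) (hIND : St_IND) (hVAN : St_VAN) (hLIM : St_LIM)
    (hSEQ : St_SEQ) (hCOM : St_COM) (hNC : St_NC) : St_FWD1 := by
  intro μ q hc g hg hR hN
  have hI : Complex.I.im ≠ 0 := by simp
  have hm : AEStronglyMeasurable (mz Complex.I) μ := (mz_meas _).aestronglyMeasurable
  obtain ⟨C, hC0⟩ := hCOM μ q hc _ g (BM.const 1) hg hR Complex.I hI
  set u : ℝ → ℂ := fun x => (Real.pi : ℂ)⁻¹ * mz Complex.I x - g x with hu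
  set v : ℝ → ℂ := fun x => mz Complex.I x * g x with hv
  have hum : AEStronglyMeasurable u μ := (hm.const_mul _).sub hg
  have hvm : AEStronglyMeasurable v μ := hm.mul hg
  have hC : ∀ f t, IsHT f t → eLpNorm f q μ ≠ ⊤ →
      eLpNorm (fun x => (∫ y, f y * mz Complex.I y) * u x + (∫ y, f y * 1) * v x) q μ
        ≤ C * eLpNorm f q μ := by
    intro f t hf hNf
    refine le_of_eq_of_le ?_ (hC0 f t hf hNf)
    refine CONST.N_eq fun x => ?_
    simp only [hu, hv, mul_one]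
    ring
  rcases hSEQ μ q hc _ _ (BM.const 1) (BM.const 0) with hB | ⟨h, t, hh⟩
  · obtain ⟨K, hK⟩ := BFN_of_BKer hB
    have hex : ∃ f t, IsHT f t ∧ eLpNorm f q μ ≠ ⊤ ∧ ∫ y, f y * (1 : ℂ) = 0 ∧
        ∫ y, f y * mz Complex.I y ≠ 0 := by
      by_contra hno
      push Not at hno
      obtain ⟨a, b, hab⟩ := CONST.rel hLIN hIND hVAN hc (BM.const 1) (BM.const 1) (mz_BM hI)
        (fun f t hf hNf h1 _ => hno f t hf hNf h1)
      exact hNC ⟨_, hab⟩
    obtain ⟨f0, t0, hf0, hN0, h1, h2⟩ := hex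
    have hNu : eLpNorm u q μ ≠ ⊤ := by
      have h3 : eLpNorm (fun x => (∫ y, f0 y * mz Complex.I y) * u x) q μ ≤ C * eLpNorm f0 q μ :=
        le_of_eq_of_le (CONST.N_eq fun x => by rw [h1]; ring) (hC f0 t0 hf0 hN0)
      rw [N_cmul] at h3
      intro htop
      rw [htop, ENNReal.mul_top (by simpa using h2)] at h3
      exact ENNReal.mul_ne_top ENNReal.coe_ne_top hN0 (top_le_iff.1 h3)
    obtain ⟨C', hC'⟩ := hR
    refine ⟨Complex.I, _, fun f t hf hNf => le_of_eq_of_le ?_ (badd hc.one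
      (((hMEAS f t hf).mono_ac hc.ac).sub (hg.const_mul (∫ y, f y * 1))) hum hNu
      (s := -∫ y, f y * 1) (hC' f t hf hNf) (by rw [enorm_neg]; exact hK f t hf hNf))⟩
    refine CONST.N_eq fun x => ?_
    simp only [hu, Pi.sub_apply]
    ring
  · obtain ⟨l, hl⟩ := hLIM μ q hc.one u v hum hvm (fun k => ∫ y, h k y * mz Complex.I y)
      (to_zero (C := C) fun k => by
        obtain ⟨h1, -, h3, h4⟩ := hh k
        exact le_of_eq_of_le (CONST.N_eq fun x => by rw [h3]; ring)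
          ((hC _ _ h1 (half_ne h4)).trans (mul_le_mul' le_rfl h4)))
    by_cases hl0 : l = 0
    · exfalso
      have hz : g =ᵐ[μ] 0 := by
        filter_upwards [hl] with x hx
        simp only [hl0, zero_mul, zero_add, hv, mz] at hx
        exact (mul_eq_zero.1 hx).resolve_left (inv_ne_zero (mI_ne x))
      rw [eLpNorm_congr_ae hz, eLpNorm_zero] at hN
      exact ENNReal.zero_ne_top hN
    · refine ⟨Complex.I + l⁻¹, RK_congr hR ?_⟩
      filter_upwards [hl, hc.ac.ae_le (ae_ne_c (Complex.I + l⁻¹))] with x hx h0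
      simp only [hu, hv, mz] at hx ⊢
      have h1 := mI_ne x
      have hpi : (Real.pi : ℂ) ≠ 0 := by exact_mod_cast Real.pi_ne_zero
      have h2 : g x * ((x : ℂ) - (Complex.I + l⁻¹)) = (Real.pi : ℂ)⁻¹ := by
        field_simp at hx ⊢
        linear_combination -hx
      rw [← h2, mul_assoc, mul_inv_cancel₀ h0, mul_one]

open FWD in
theorem bFWD2 (hMEAS : St_MEAS) (hLIM : St_LIM) (hSEQ : St_SEQ) (hFUN : St_FUN)
    (hCOM : St_COM) : St_FWD2 := by
  intro μ q hc φ g hφ hg hR hN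
  have hI : Complex.I.im ≠ 0 := by simp
  have hmB := mz_BM hI
  have hm : AEStronglyMeasurable (mz Complex.I) μ := (mz_meas _).aestronglyMeasurable
  have hpi : (Real.pi : ℂ) ≠ 0 := by exact_mod_cast Real.pi_ne_zero
  obtain ⟨C, hC⟩ := hCOM μ q hc φ g hφ hg hR Complex.I hI
  rcases hSEQ μ q hc _ _ hφ hmB with hB | ⟨h, t, hh⟩
  swap
  · left
    obtain ⟨l, hl⟩ := hLIM μ q hc.one g (fun x => mz Complex.I x * g x) hg (hm.mul hg)
      (fun k => -∫ y, h k y * (mz Complex.I y * φ y))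
      (to_zero (C := C) fun k => by
        obtain ⟨h1, h2, h3, h4⟩ := hh k
        exact le_of_eq_of_le (CONST.N_eq fun x => by rw [h2, h3]; ring)
          ((hC _ _ h1 (half_ne h4)).trans (mul_le_mul' le_rfl h4)))
    have hz : ∀ᵐ x ∂μ, g x = 0 := by
      filter_upwards [hl, hc.ac.ae_le (ae_ne_c (Complex.I - l⁻¹))] with x hx h0
      have h1 := mI_ne x
      by_contra hgx
      have h2 : l + mz Complex.I x = 0 := by
        apply (mul_eq_zero.1 (show (l + mz Complex.I x) * g x = 0 by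
          linear_combination hx)).resolve_right hgx
      unfold mz at h2
      have h3 : l = -((x : ℂ) - Complex.I)⁻¹ := by linear_combination h2
      apply h0
      rw [h3, inv_neg, inv_inv]
      ring
    obtain ⟨C', hC'⟩ := RK_congr hR hz
    exact ⟨C', fun f t hf hNf _ =>
      le_of_eq_of_le (CONST.N_eq fun x => by ring) (hC' f t hf hNf)⟩
  obtain ⟨c, hBc⟩ := hFUN μ q hc _ _ hφ hmB hB
  by_cases hc0 : c = 0
  · left
    exact adm0_of_BFN hMEAS hc hg hR hN (by simpa [hc0] using hBc)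
  obtain ⟨K, hK⟩ := hBc
  rcases hSEQ μ q hc _ _ hmB (BM.const 0) with hB' | ⟨h, t, hh⟩
  · left
    obtain ⟨K', hK'⟩ := BFN_of_BKer hB'
    refine adm0_of_BFN hMEAS hc hg hR hN ⟨K + ‖c‖₊ * K', fun f t hf hNf => ?_⟩
    have e : (∫ y, f y * φ y) = (∫ y, f y * (φ y - c * mz Complex.I y))
        + c * ∫ y, f y * mz Complex.I y := by
      rw [pr_sub hφ hmB hf.1]
      ring
    rw [e]
    refine (enorm_add_le _ _).trans ?_
    rw [enorm_mul]
    push_cast
    rw [add_mul, mul_assoc]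
    exact add_le_add (hK f t hf hNf) (mul_le_mul' le_rfl (hK' f t hf hNf))
  right
  have hNm : eLpNorm (fun x => mz Complex.I x * g x) q μ ≠ ⊤ := by
    have h1 := N_mz (μ := μ) (q := q) hI g
    exact ne_top_of_le_ne_top (ENNReal.mul_ne_top ENNReal.ofReal_ne_top hN)
      (le_of_eq_of_le (CONST.N_eq fun x => mul_comm _ _) h1)
  obtain ⟨l, hl⟩ := hLIM μ q hc.one g
    (fun x => (Real.pi : ℂ)⁻¹ * mz Complex.I x + c * (mz Complex.I x * g x)) hg
    ((hm.const_mul _).add ((hm.mul hg).const_mul _))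
    (fun k => -∫ y, h k y * (mz Complex.I y * φ y))
    (to_zero (C := C + K * (eLpNorm (fun x => mz Complex.I x * g x) q μ).toNNReal) fun k => by
      obtain ⟨h1, -, h3, h4⟩ := hh k
      have h5 := badd hc.one ((((hm.const_mul _).const_mul _).sub (hg.const_mul _)).add
        ((hm.mul hg).const_mul _)) (hm.mul hg) hNm
        (s := -∫ y, h k y * (φ y - c * mz Complex.I y)) (hC _ _ h1 (half_ne h4))
        (by rw [enorm_neg]; exact hK _ _ h1 (half_ne h4))
      refine le_trans (le_of_eq ?_) (h5.trans (mul_le_mul' le_rfl h4))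
      refine CONST.N_eq fun x => ?_
      simp only [Pi.add_apply, Pi.sub_apply, Pi.mul_apply]
      rw [pr_sub hφ hmB h1.1, h3]
      ring)
  have hRm : RK μ q (mz Complex.I) (fun x => c * g x) := by
    obtain ⟨C', hC'⟩ := hR
    refine ⟨_, fun f t hf hNf => le_of_eq_of_le ?_ (badd hc.one
      (((hMEAS f t hf).mono_ac hc.ac).sub (hg.const_mul (∫ y, f y * φ y))) hg hN
      (hC' f t hf hNf) (hK f t hf hNf))⟩
    refine CONST.N_eq fun x => ?_
    simp only [Pi.sub_apply]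
    rw [pr_sub hφ hmB hf.1]
    ring
  refine ⟨c, hc0, ⟨K, hK⟩, ?_⟩
  by_cases hl0 : l = 0
  · left
    refine RK_congr hRm ?_
    filter_upwards [hl] with x hx
    have h1 : mz Complex.I x ≠ 0 := inv_ne_zero (mI_ne x)
    rw [hl0] at hx
    apply mul_left_cancel₀ h1
    linear_combination hx
  · right
    refine ⟨Complex.I - c * l⁻¹, RK_congr hRm ?_⟩
    filter_upwards [hl, hc.ac.ae_le (ae_ne_c (Complex.I - c * l⁻¹))] with x hx h0
    have h1 := mI_ne x
    simp only [mz] at hx ⊢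
    have h2 : c * g x * ((x : ℂ) - (Complex.I - c * l⁻¹))
        = (Complex.I - c * l⁻¹ - Complex.I) * (Real.pi : ℂ)⁻¹ := by
      field_simp at hx ⊢
      linear_combination c * hx
    rw [← h2, mul_assoc _ _ (_⁻¹), mul_inv_cancel₀ h0, mul_one]

end Pool.Agent.Lib.HT26
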