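import Pool.Agent.Lib.HT26.Blue

open MeasureTheory Filter Topology
open scoped ENNReal NNReal

namespace Pool.Agent.Lib.HT26

theorem bLIM : St_LIM := by
  intro μ q hq u v hu hv a h
  have hm : ∀ k, AEStronglyMeasurable (fun x => a k * u x + v x) μ :=
    fun k => (hu.const_mul (a k)).add hv
  have h1 : TendstoInMeasure μ (fun k x => a k * u x + v x) atTop (fun _ => (0 : ℂ)) := by
    refine tendstoInMeasure_of_tendsto_eLpNorm (p := q) (zero_lt_one.trans_le hq).ne' hm
      aestronglyMeasurable_const ?_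
    refine h.congr fun k => ?_
    congr 1
    funext x
    exact (sub_zero _).symm
  obtain ⟨ns, -, hns⟩ := h1.exists_seq_tendsto_ae
  by_cases hx : ∃ x0, u x0 ≠ 0 ∧ Tendsto (fun i => a (ns i) * u x0 + v x0) atTop (𝓝 0)
  · obtain ⟨x0, hu0, h0⟩ := hx
    have h2 : Tendsto (fun i => a (ns i)) atTop (𝓝 ((0 - v x0) * (u x0)⁻¹)) := by
      refine ((h0.sub_const (v x0)).mul_const (u x0)⁻¹).congr fun i => ?_
      field_simp
      ring
    refine ⟨(0 - v x0) * (u x0)⁻¹, ?_⟩
    filter_upwards [hns] with x hx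
    exact tendsto_nhds_unique ((h2.mul_const (u x)).add_const (v x)) hx
  · refine ⟨0, ?_⟩
    filter_upwards [hns] with x hx'
    have hu0 : u x = 0 := by
      by_contra hne
      exact hx ⟨x, hne, hx'⟩
    rw [hu0] at hx' ⊢
    simp only [mul_zero] at hx' ⊢
    exact tendsto_nhds_unique tendsto_const_nhds hx'

end Pool.Agent.Lib.HT26
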