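import Pool.Agent.Lib.HT26.Blue

open MeasureTheory Filter Topology
open scoped ENNReal NNReal

namespace Pool.Agent.Lib.HT26

namespace R1

theorem comb (hLIN : St_LIN) {f t e te : ℝ → ℂ} (c : ℂ) (h : IsHT f t) (he : IsHT e te) :
    IsHT (fun y => f y - c * e y) (fun x => t x - c * te x) := by
  have h3 := hLIN f t e te 1 (-c) h he
  simp only [one_mul, neg_mul, ← sub_eq_add_neg] at h3
  exact h3

theorem int_comb {f e χ : ℝ → ℂ} (c : ℂ) (hχ : BM χ) (h : Integrable f) (he : Integrable e) :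
    ∫ y, (f y - c * e y) * χ y = (∫ y, f y * χ y) - c * ∫ y, e y * χ y := by
  simp only [sub_mul, mul_assoc]
  rw [integral_sub (hχ.int h) ((hχ.int he).const_mul c), integral_const_mul]

theorem N_comb {μ : Measure ℝ} {q : ℝ≥0∞} (hc : Ctx μ q) {f e : ℝ → ℂ} (c : ℂ)
    (h : Integrable f) (he : Integrable e) :
    eLpNorm (fun y => f y - c * e y) q μ ≤ eLpNorm f q μ + ‖c‖ₑ * eLpNorm e q μ := by
  rw [← N_cmul]
  exact N_sub hc.one (h.aestronglyMeasurable.mono_ac hc.ac)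
    ((he.aestronglyMeasurable.mono_ac hc.ac).const_mul c)

theorem tend (K : ℝ≥0) (a b : ℝ≥0∞) (hb : b ≠ ⊤) :
    Tendsto (fun k : ℕ => (K : ℝ≥0∞) * (a + b * (2 : ℝ≥0∞)⁻¹ ^ k)) atTop (𝓝 (K * a)) := by
  have h1 : Tendsto (fun k : ℕ => (2 : ℝ≥0∞)⁻¹ ^ k) atTop (𝓝 0) :=
    ENNReal.tendsto_pow_atTop_nhds_zero_of_lt_one (by simp)
  have h2 := ENNReal.Tendsto.const_mul (a := b) h1 (Or.inr hb)
  have h3 := ENNReal.Tendsto.const_mul (a := (K : ℝ≥0∞)) (h2.const_add a)
    (Or.inr ENNReal.coe_ne_top)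
  rw [mul_zero, add_zero] at h3
  exact h3

end R1

theorem bR1 (hLIN : St_LIN) (hMEAS : St_MEAS) (hSEQ : St_SEQ) : St_R1 := by
  intro μ q hc φ hφ ⟨C, hC⟩
  have key : ∀ f t e te, IsHT f t → IsHT e te → eLpNorm f q μ ≠ ⊤ → eLpNorm e q μ ≠ ⊤ →
      ∫ y, e y * φ y = 1 →
      eLpNorm (fun x => t x - (∫ y, f y * φ y) * te x) q μ ≤
        C * (eLpNorm f q μ + ‖∫ y, f y * φ y‖ₑ * eLpNorm e q μ) := by
    intro f t e te hf he hfN heN he1
    have hN := R1.N_comb hc (∫ y, f y * φ y) hf.1 he.1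
    have h1 := hC _ _ (R1.comb hLIN (∫ y, f y * φ y) hf he)
      (ne_top_of_le_ne_top
        (ENNReal.add_ne_top.2 ⟨hfN, ENNReal.mul_ne_top enorm_ne_top heN⟩) hN)
      (by rw [R1.int_comb _ hφ hf.1 he.1, he1, mul_one, sub_self])
    exact h1.trans (mul_le_mul_right hN _)
  rcases hSEQ μ q hc φ (fun _ => 0) hφ (BM.const 0) with ⟨K', hK'⟩ | ⟨h, t, hh⟩
  · by_cases hz : ∃ f t, IsHT f t ∧ eLpNorm f q μ ≠ ⊤ ∧ ∫ y, f y * φ y ≠ 0
    · obtain ⟨e0, t0, he0, hN0, hne⟩ := hz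
      have h3 := hLIN e0 t0 e0 t0 (∫ y, e0 y * φ y)⁻¹ 0 he0 he0
      simp only [zero_mul, add_zero] at h3
      set e : ℝ → ℂ := fun y => (∫ y, e0 y * φ y)⁻¹ * e0 y with he
      have heN : eLpNorm e q μ ≠ ⊤ := by
        rw [he, N_cmul]
        exact ENNReal.mul_ne_top enorm_ne_top hN0
      have he1 : ∫ y, e y * φ y = 1 := by
        simp only [he, mul_assoc]
        rw [integral_const_mul, inv_mul_cancel₀ hne]
      refine ⟨_, (hMEAS _ _ h3).mono_ac hc.ac, C * (1 + K' * (eLpNorm e q μ).toNNReal),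
        fun f t hf hfN => ?_⟩
      refine (key f t e _ hf h3 hfN heN he1).trans ?_
      have h4 := hK' f t hf hfN (by simp)
      rw [ENNReal.coe_mul, ENNReal.coe_add, ENNReal.coe_mul, ENNReal.coe_one,
        ENNReal.coe_toNNReal heN, mul_assoc]
      refine mul_le_mul_right ?_ _
      rw [add_mul, one_mul, mul_right_comm]
      exact add_le_add le_rfl (mul_le_mul_left h4 _)
    · refine ⟨fun _ => 0, aestronglyMeasurable_const, C, fun f t hf hfN => ?_⟩
      have h0 : ∫ y, f y * φ y = 0 := by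
        by_contra hne
        exact hz ⟨f, t, hf, hfN, hne⟩
      have h1 : (fun x => t x - (∫ y, f y * φ y) * (0 : ℂ)) = t := by
        funext x
        rw [mul_zero, sub_zero]
      rw [h1]
      exact hC f t hf hfN h0
  · have hfin : ∀ k, eLpNorm (h k) q μ ≠ ⊤ := fun k =>
      ne_top_of_le_ne_top (ENNReal.pow_ne_top (by simp)) (hh k).2.2.2
    have htm : ∀ k, AEStronglyMeasurable (t k) μ := fun k => (hMEAS _ _ (hh k).1).mono_ac hc.ac
    have hB : ∑' i : ℕ, ((C : ℝ≥0∞) * 2 + 1) * (2 : ℝ≥0∞)⁻¹ ^ i ≠ ⊤ := by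
      rw [ENNReal.tsum_mul_left, ENNReal.tsum_geometric]
      refine ENNReal.mul_ne_top
        (ENNReal.add_ne_top.2 ⟨ENNReal.mul_ne_top ENNReal.coe_ne_top (by simp), by simp⟩) ?_
      simp
    have hcau : ∀ N n m : ℕ, N ≤ n → N ≤ m →
        eLpNorm (t n - t m) q μ < ((C : ℝ≥0∞) * 2 + 1) * (2 : ℝ≥0∞)⁻¹ ^ N := by
      intro N n m hn hm
      have h1 := key (h n) (t n) (h m) (t m) (hh n).1 (hh m).1 (hfin n) (hfin m) (hh m).2.2.1
      rw [(hh n).2.2.1, enorm_one, one_mul] at h1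
      have h2 : t n - t m = fun x => t n x - 1 * t m x := by
        funext x
        rw [one_mul]; rfl
      have h3 : eLpNorm (h n) q μ + eLpNorm (h m) q μ ≤ 2 * (2 : ℝ≥0∞)⁻¹ ^ N := by
        rw [two_mul]
        exact add_le_add ((hh n).2.2.2.trans (pow_le_pow_of_le_one zero_le (by simp) hn))
          ((hh m).2.2.2.trans (pow_le_pow_of_le_one zero_le (by simp) hm))
      rw [h2]
      refine (h1.trans (mul_le_mul_right h3 _)).trans_lt ?_
      rw [add_mul, one_mul, mul_assoc]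
      exact ENNReal.lt_add_right
        (ENNReal.mul_ne_top ENNReal.coe_ne_top
          (ENNReal.mul_ne_top (by simp) (ENNReal.pow_ne_top (by simp))))
        (pow_ne_zero _ (by simp))
    obtain ⟨g, hg, hlim⟩ := exists_stronglyMeasurable_limit_of_tendsto_ae htm
      (Lp.ae_tendsto_of_cauchy_eLpNorm htm hc.one hB hcau)
    refine ⟨g, hg.aestronglyMeasurable, C, fun f tf hf hfN => ?_⟩
    have htf : AEStronglyMeasurable tf μ := (hMEAS _ _ hf).mono_ac hc.ac
    have h1 := Lp.eLpNorm_lim_le_liminf_eLpNorm (p := q) (μ := μ)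
      (f := fun k x => tf x - (∫ y, f y * φ y) * t k x)
      (fun k => htf.sub ((htm k).const_mul _)) (fun x => tf x - (∫ y, f y * φ y) * g x)
      (by
        filter_upwards [hlim] with x hx
        exact (hx.const_mul _).const_sub _)
    refine h1.trans ?_
    rw [← (R1.tend C (eLpNorm f q μ) ‖∫ y, f y * φ y‖ₑ enorm_ne_top).liminf_eq]
    refine liminf_le_liminf (Eventually.of_forall fun k => ?_)
    refine (key f tf (h k) (t k) hf (hh k).1 hfN (hfin k) (hh k).2.2.1).trans ?_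
    exact mul_le_mul_right (add_le_add le_rfl (mul_le_mul_right (hh k).2.2.2 _)) _

end Pool.Agent.Lib.HT26
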