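import Pool.Agent.Lib.HT26.Blue

open MeasureTheory Filter Topology
open scoped ENNReal NNReal

namespace Pool.Agent.Lib.HT26

theorem bSEQ (hLIN : St_LIN) : St_SEQ := by
  intro μ q _ χ ψ _ _
  by_cases hB : BKer μ q χ ψ
  · exact Or.inl hB
  right
  have h1 : ∀ k : ℕ, ∃ h t : ℝ → ℂ, IsHT h t ∧ ∫ y, h y * ψ y = 0 ∧
      ∫ y, h y * χ y = 1 ∧ eLpNorm h q μ ≤ (2 : ℝ≥0∞)⁻¹ ^ k := by
    intro k
    have h2 : ¬ ∀ f t, IsHT f t → eLpNorm f q μ ≠ ⊤ → ∫ y, f y * ψ y = 0 →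
        ‖∫ y, f y * χ y‖ₑ ≤ ((2 ^ k : ℝ≥0) : ℝ≥0∞) * eLpNorm f q μ := fun h => hB ⟨2 ^ k, h⟩
    push Not at h2
    obtain ⟨f, t, hft, -, h0, hlt⟩ := h2
    set c : ℂ := ∫ y, f y * χ y with hc
    have hc0 : c ≠ 0 := by
      intro h
      rw [h, enorm_zero] at hlt
      exact not_lt_zero hlt
    have h3 := hLIN f t f t c⁻¹ 0 hft hft
    simp only [zero_mul, add_zero] at h3
    refine ⟨fun y => c⁻¹ * f y, fun x => c⁻¹ * t x, h3, ?_, ?_, ?_⟩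
    · simp only [mul_assoc]
      rw [integral_const_mul, h0, mul_zero]
    · simp only [mul_assoc]
      rw [integral_const_mul, ← hc, inv_mul_cancel₀ hc0]
    · rw [N_cmul, enorm_inv hc0]
      have hc1 : ‖c‖ₑ ≠ 0 := by simpa using hc0
      have hc2 : ‖c‖ₑ ≠ ⊤ := enorm_ne_top
      have h4 : eLpNorm f q μ ≤ (2 : ℝ≥0∞)⁻¹ ^ k * ‖c‖ₑ := by
        have h5 : ((2 ^ k : ℝ≥0) : ℝ≥0∞) = 2 ^ k := by push_cast; rfl
        rw [h5] at hlt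
        calc eLpNorm f q μ = (2 : ℝ≥0∞)⁻¹ ^ k * (2 ^ k * eLpNorm f q μ) := by
              rw [← mul_assoc, ← mul_pow, ENNReal.inv_mul_cancel (by simp) (by simp), one_pow,
                one_mul]
          _ ≤ _ := mul_le_mul_right hlt.le _
      calc ‖c‖ₑ⁻¹ * eLpNorm f q μ ≤ ‖c‖ₑ⁻¹ * ((2 : ℝ≥0∞)⁻¹ ^ k * ‖c‖ₑ) := mul_le_mul_right h4 _
        _ = (2 : ℝ≥0∞)⁻¹ ^ k := by
          rw [mul_comm ((2 : ℝ≥0∞)⁻¹ ^ k), ← mul_assoc, ENNReal.inv_mul_cancel hc1 hc2, one_mul]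
  choose h t hh using h1
  exact ⟨h, t, hh⟩

end Pool.Agent.Lib.HT26
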